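import Mathlib

/-!
# Completely multiplicative functions given by their values at the primes
-/

set_option autoImplicit false

namespace Pool.Agent.V11197.CM

open Finset
open scoped Classical

/-- the completely multiplicative function with the values `f p` at the primes -/
noncomputable def cm (f : ℕ → ℝ) (n : ℕ) : ℝ := ∏ p ∈ n.primeFactors, f p ^ n.factorization p

lemma cm_one (f : ℕ → ℝ) : cm f 1 = 1 := by simp [cm]

lemma cm_eq_sub (f : ℕ → ℝ) (n : ℕ) (S : Finset ℕ) (hS : n.primeFactors ⊆ S) :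
    cm f n = ∏ p ∈ S, f p ^ n.factorization p := by
  unfold cm
  apply prod_subset hS
  intro p _ hp
  rw [← Nat.support_factorization, Finsupp.notMem_support_iff] at hp
  rw [hp, pow_zero]

lemma cm_mul (f : ℕ → ℝ) (m n : ℕ) (hm : m ≠ 0) (hn : n ≠ 0) :
    cm f (m * n) = cm f m * cm f n := by
  have h := Nat.primeFactors_mul hm hn
  rw [cm_eq_sub f m (m.primeFactors ∪ n.primeFactors) subset_union_left,
    cm_eq_sub f n (m.primeFactors ∪ n.primeFactors) subset_union_right, ← prod_mul_distrib]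
  unfold cm
  rw [h]
  refine prod_congr rfl fun p _ => ?_
  rw [Nat.factorization_mul hm hn, Finsupp.add_apply, pow_add]

lemma cm_prime (f : ℕ → ℝ) (p : ℕ) (hp : p.Prime) : cm f p = f p := by
  unfold cm
  rw [hp.primeFactors, prod_singleton, hp.factorization_self, pow_one]

lemma cm_nonneg (f : ℕ → ℝ) (hf : ∀ p, 0 ≤ f p) (n : ℕ) : 0 ≤ cm f n :=
  prod_nonneg fun p _ => pow_nonneg (hf p) _

lemma one_le_cm (f : ℕ → ℝ) (hf : ∀ p, 1 ≤ f p) (n : ℕ) : 1 ≤ cm f n := by
  unfold cm
  apply Finset.prod_induction (p := fun x : ℝ => 1 ≤ x)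
  · intro a b ha hb
    exact one_le_mul_of_one_le_of_one_le ha hb
  · exact le_rfl
  · intro p _
    exact one_le_pow₀ (hf p)

lemma cm_le (f g : ℕ → ℝ) (n : ℕ) (hf : ∀ p ∈ n.primeFactors, 0 ≤ f p)
    (hfg : ∀ p ∈ n.primeFactors, f p ≤ g p) : cm f n ≤ cm g n := by
  unfold cm
  apply Finset.prod_le_prod
  · intro p hp
    exact pow_nonneg (hf p hp) _
  · intro p hp
    exact pow_le_pow_left₀ (hf p hp) (hfg p hp) _

lemma cm_congr (f g : ℕ → ℝ) (n : ℕ) (hfg : ∀ p ∈ n.primeFactors, f p = g p) : cm f n = cm g n := by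
  unfold cm
  exact prod_congr rfl fun p hp => by rw [hfg p hp]

lemma cm_fun_mul (f g : ℕ → ℝ) (n : ℕ) : cm (fun p => f p * g p) n = cm f n * cm g n := by
  unfold cm
  rw [← prod_mul_distrib]
  exact prod_congr rfl fun p _ => by rw [mul_pow]

lemma cm_const_one (n : ℕ) : cm (fun _ => 1) n = 1 := by
  unfold cm
  simp

lemma cm_id (n : ℕ) (hn : n ≠ 0) : cm (fun p => (p : ℝ)) n = n := by
  unfold cm
  have h := Nat.prod_factorization_pow_eq_self hn
  unfold Finsupp.prod at h
  rw [Nat.support_factorization] at h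
  conv_rhs => rw [← h]
  push_cast
  rfl

lemma cm_inv (n : ℕ) (hn : n ≠ 0) : cm (fun p => 1 / (p : ℝ)) n = 1 / (n : ℝ) := by
  have h := cm_id n hn
  rw [← h]
  unfold cm
  simp only [one_div, inv_pow, Finset.prod_inv_distrib]

lemma cm_rpow (n : ℕ) (hn : n ≠ 0) (θ : ℝ) : cm (fun p => (p : ℝ) ^ θ) n = (n : ℝ) ^ θ := by
  have h := cm_id n hn
  rw [← h]
  unfold cm
  rw [← Real.finsetProd_rpow _ _ (fun p _ => by positivity)]
  refine prod_congr rfl fun p _ => ?_
  rw [← Real.rpow_natCast, ← Real.rpow_mul (by positivity), ← Real.rpow_natCast (p : ℝ),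
    ← Real.rpow_mul (by positivity), mul_comm]

lemma cm_squarefree (f : ℕ → ℝ) (n : ℕ) (hn : Squarefree n) :
    cm f n = ∏ p ∈ n.primeFactors, f p := by
  unfold cm
  refine prod_congr rfl fun p hp => ?_
  have h1 : n.factorization p = 1 := by
    have h2 := hn.natFactorization_le_one p
    have h3 : n.factorization p ≠ 0 := by
      rw [← Finsupp.mem_support_iff, Nat.support_factorization]
      exact hp
    omega
  rw [h1, pow_one]

lemma abs_cm (f : ℕ → ℝ) (n : ℕ) : |cm f n| = cm (fun p => |f p|) n := by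
  unfold cm
  rw [abs_prod]
  exact prod_congr rfl fun p _ => by rw [abs_pow]

/-- first order mass -/
noncomputable def DD (u v : ℕ → ℝ) (n : ℕ) : ℝ :=
  ∑ p ∈ n.primeFactors, (n.factorization p : ℝ) * (u p * cm v (n / p))

lemma DD_eq_sub (u v : ℕ → ℝ) (n : ℕ) (S : Finset ℕ) (hS : n.primeFactors ⊆ S) :
    DD u v n = ∑ p ∈ S, (n.factorization p : ℝ) * (u p * cm v (n / p)) := by
  unfold DD
  apply sum_subset hS
  intro p _ hp
  rw [← Nat.support_factorization, Finsupp.notMem_support_iff] at hp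
  rw [hp, Nat.cast_zero, zero_mul]

lemma DD_one (u v : ℕ → ℝ) : DD u v 1 = 0 := by simp [DD]

lemma DD_mul (u v : ℕ → ℝ) (a n : ℕ) (ha : a.Prime) (hn : n ≠ 0) :
    DD u v (a * n) = u a * cm v n + v a * DD u v n := by
  have ha0 := ha.ne_zero
  have hpf : (a * n).primeFactors = insert a n.primeFactors := by
    rw [Nat.primeFactors_mul ha0 hn, ha.primeFactors]
    rfl
  have hfac : ∀ p, (a * n).factorization p = (if p = a then 1 else 0) + n.factorization p := by
    intro p
    rw [Nat.factorization_mul ha0 hn, Finsupp.add_apply, ha.factorization, Finsupp.single_apply]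
    congr 1
    by_cases h : a = p
    · rw [if_pos h, if_pos h.symm]
    · rw [if_neg h, if_neg (fun h' => h h'.symm)]
  rw [DD_eq_sub u v n (insert a n.primeFactors) (subset_insert _ _)]
  unfold DD
  rw [hpf]
  have h1 : ∀ p ∈ insert a n.primeFactors, ((a * n).factorization p : ℝ) * (u p * cm v (a * n / p)) =
      (if p = a then u a * cm v n else 0) +
        v a * ((n.factorization p : ℝ) * (u p * cm v (n / p))) := by
    intro p hp
    rw [hfac p]
    push_cast
    by_cases hpn : n.factorization p = 0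
    · rw [hpn]
      by_cases hpa : p = a
      · subst hpa
        rw [if_pos rfl, if_pos rfl, Nat.mul_div_cancel_left n ha.pos]
        push_cast
        ring
      · rw [if_neg hpa, if_neg hpa]
        push_cast
        ring
    · have hpf : p ∈ n.primeFactors := by
        rw [← Nat.support_factorization, Finsupp.mem_support_iff]
        exact hpn
      have hpd := Nat.dvd_of_mem_primeFactors hpf
      have hpp := Nat.prime_of_mem_primeFactors hpf
      have h2 : a * n / p = a * (n / p) := Nat.mul_div_assoc a hpd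
      have h3 : n / p ≠ 0 := by
        have := Nat.div_pos (Nat.le_of_dvd (Nat.pos_of_ne_zero hn) hpd) hpp.pos
        omega
      by_cases hpa : p = a
      · subst hpa
        rw [if_pos rfl, if_pos rfl, Nat.mul_div_cancel_left n ha.pos]
        have h4 : cm v n = v p * cm v (n / p) := by
          conv_lhs => rw [← Nat.mul_div_cancel' hpd]
          rw [cm_mul v p (n / p) ha0 h3, cm_prime v p ha]
        rw [h4]
        push_cast
        ring
      · rw [if_neg hpa, if_neg hpa, h2, cm_mul v a (n / p) ha0 h3, cm_prime v a ha]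
        push_cast
        ring
  rw [sum_congr rfl h1, sum_add_distrib, sum_ite_eq' (insert a n.primeFactors) a,
    if_pos (mem_insert_self _ _), mul_sum]

lemma DD_nonneg (u v : ℕ → ℝ) (hu : ∀ p, 0 ≤ u p) (hv : ∀ p, 0 ≤ v p) (n : ℕ) : 0 ≤ DD u v n :=
  sum_nonneg fun p _ => mul_nonneg (Nat.cast_nonneg _) (mul_nonneg (hu p) (cm_nonneg v hv _))

lemma factorization_eq_one (n p : ℕ) (hn : Squarefree n) (hp : p ∈ n.primeFactors) :
    n.factorization p = 1 := by
  have h2 := hn.natFactorization_le_one p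
  have h3 : n.factorization p ≠ 0 := by
    rw [← Finsupp.mem_support_iff, Nat.support_factorization]
    exact hp
  omega

/-- induction over the prime factors -/
theorem ind {P : (n : ℕ) → n ≠ 0 → Prop} (h1 : P 1 one_ne_zero)
    (h2 : ∀ (a n : ℕ) (ha : a.Prime) (hn : n ≠ 0), P n hn → P (a * n) (mul_ne_zero ha.ne_zero hn))
    (n : ℕ) (hn : n ≠ 0) : P n hn := by
  have key : ∀ (m : ℕ) (hm : m ≠ 0), P m hm := by
    intro m
    induction m using induction_on_primes with
    | zero => intro h; exact absurd rfl h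
    | one => intro _; exact h1
    | prime_mul p a hp ih =>
      intro h
      have ha : a ≠ 0 := fun h0 => h (by rw [h0, mul_zero])
      exact h2 p a hp ha (ih ha)
  exact key n hn

lemma split_all (u s : ℕ → ℝ) (hu : ∀ p, 0 ≤ u p) (hs : ∀ p, 0 ≤ s p) (n : ℕ) (hn : n ≠ 0) :
    (cm (fun p => 1 + (u p + s p)) n + DD (fun p => u p + s p) (fun p => 1 + (u p + s p)) n ≤
      cm (fun p => 1 + 2 * (u p + s p)) n) ∧
    (DD (fun p => u p + s p) (fun p => 1 + (u p + s p)) n ≤
      DD u (fun p => 1 + 2 * (u p + s p)) n + cm (fun p => 1 + 2 * s p) n) ∧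
    (cm (fun p => 1 + (u p + s p)) n + DD (fun p => u p + s p) (fun p => 1 + (u p + s p)) n ≤
      2 * DD u (fun p => 1 + 2 * (u p + s p)) n + cm (fun p => 1 + 2 * s p) n) := by
  induction n, hn using ind with
  | h1 => simp [DD_one, cm_one]
  | h2 a n ha hn ih =>
    rw [DD_mul _ _ a n ha hn, DD_mul _ _ a n ha hn, cm_mul _ a n ha.ne_zero hn,
      cm_mul _ a n ha.ne_zero hn, cm_mul _ a n ha.ne_zero hn, cm_prime _ a ha, cm_prime _ a ha,
      cm_prime _ a ha]
    obtain ⟨h0, h1, h2⟩ := ih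
    have hua := hu a
    have hsa := hs a
    have hE1 : 1 ≤ cm (fun p => 1 + (u p + s p)) n :=
      one_le_cm _ (fun p => by linarith [hu p, hs p]) n
    have hT : 0 ≤ DD (fun p => u p + s p) (fun p => 1 + (u p + s p)) n :=
      DD_nonneg _ _ (fun p => add_nonneg (hu p) (hs p)) (fun p => by linarith [hu p, hs p]) n
    have hA : 0 ≤ DD u (fun p => 1 + 2 * (u p + s p)) n :=
      DD_nonneg _ _ hu (fun p => by linarith [hu p, hs p]) n
    have hB : 1 ≤ cm (fun p => 1 + 2 * s p) n := one_le_cm _ (fun p => by linarith [hs p]) n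
    set E1 := cm (fun p => 1 + (u p + s p)) n with hE1d
    set T := DD (fun p => u p + s p) (fun p => 1 + (u p + s p)) n with hTd
    set E2 := cm (fun p => 1 + 2 * (u p + s p)) n with hE2d
    set A := DD u (fun p => 1 + 2 * (u p + s p)) n with hAd
    set B := cm (fun p => 1 + 2 * s p) n with hBd
    have k1 : 0 ≤ u a * (E2 - (E1 + T)) := mul_nonneg hua (by linarith)
    have k2 : 0 ≤ s a * (E2 - (E1 + T)) := mul_nonneg hsa (by linarith)
    have k3 : 0 ≤ s a * (2 * A + B - (E1 + T)) := mul_nonneg hsa (by linarith)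
    have k4 : 0 ≤ u a * A := mul_nonneg hua hA
    have k5 : 0 ≤ s a * B := mul_nonneg hsa (by linarith)
    have k6 : 0 ≤ u a * T := mul_nonneg hua hT
    have k7 : 0 ≤ s a * T := mul_nonneg hsa hT
    have k8 : 0 ≤ s a * A := mul_nonneg hsa hA
    have k9 : 0 ≤ u a * E1 := mul_nonneg hua (by linarith)
    have k10 : 0 ≤ u a * B := mul_nonneg hua (by linarith)
    refine ⟨?_, ?_, ?_⟩
    · nlinarith
    · nlinarith
    · nlinarith

/-- perturbation of a completely multiplicative function -/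
lemma perturb (x g g' G : ℕ → ℝ) (ε : ℝ) (hx : ∀ p, 0 ≤ x p)
    (hε : 0 ≤ ε) (hg : ∀ p, |g p| ≤ G p) (hg' : ∀ p, |g' p| ≤ G p)
    (hgg : ∀ p, |g p - g' p| ≤ ε * G p) (n : ℕ) (hn : n ≠ 0) :
    (|cm (fun p => g p - x p) n| ≤ cm (fun p => x p + G p) n) ∧
    (|cm (fun p => g p - x p) n - cm (fun p => g' p - x p) n| ≤
      ε * DD G (fun p => x p + G p) n) := by
  have hG : ∀ p, 0 ≤ G p := fun p => (abs_nonneg _).trans (hg p)
  have hb : ∀ p, |g p - x p| ≤ x p + G p := fun p => by
    have h1 := abs_sub (g p) (x p)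
    rw [abs_of_nonneg (hx p)] at h1
    linarith [hg p]
  have hb' : ∀ p, |g' p - x p| ≤ x p + G p := fun p => by
    have h1 := abs_sub (g' p) (x p)
    rw [abs_of_nonneg (hx p)] at h1
    linarith [hg' p]
  induction n, hn using ind with
  | h1 => simp [DD_one, cm_one]
  | h2 a n ha hn ih =>
    obtain ⟨h1, h2⟩ := ih
    rw [DD_mul _ _ a n ha hn, cm_mul _ a n ha.ne_zero hn,
      cm_mul _ a n ha.ne_zero hn, cm_mul _ a n ha.ne_zero hn, cm_prime _ a ha, cm_prime _ a ha,
      cm_prime _ a ha]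
    set A := cm (fun p => g p - x p) n with hA
    set A' := cm (fun p => g' p - x p) n with hA'
    set B := cm (fun p => x p + G p) n with hB
    set S := DD G (fun p => x p + G p) n with hS
    have hB0 : 0 ≤ B := (abs_nonneg _).trans h1
    have hxa : 0 ≤ x a + G a := add_nonneg (hx a) (hG a)
    refine ⟨?_, ?_⟩
    · rw [abs_mul]
      exact mul_le_mul (hb a) h1 (abs_nonneg _) hxa
    · have e : (g a - x a) * A - (g' a - x a) * A' = (g a - g' a) * A + (g' a - x a) * (A - A') := by
        ring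
      rw [e]
      refine (abs_add_le _ _).trans ?_
      rw [abs_mul, abs_mul]
      have t1 : |g a - g' a| * |A| ≤ (ε * G a) * B :=
        mul_le_mul (hgg a) h1 (abs_nonneg _) (mul_nonneg hε (hG a))
      have t2 : |g' a - x a| * |A - A'| ≤ (x a + G a) * (ε * S) :=
        mul_le_mul (hb' a) h2 (abs_nonneg _) hxa
      calc |g a - g' a| * |A| + |g' a - x a| * |A - A'|
          ≤ (ε * G a) * B + (x a + G a) * (ε * S) := add_le_add t1 t2
        _ = ε * (G a * B + (x a + G a) * S) := by ring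

/-- `cm (1/p + g p) = (1/n) cm (1 + p g p)` -/
lemma cm_scale (n : ℕ) (hn : n ≠ 0) (g : ℕ → ℝ) :
    cm (fun p => 1 / (p : ℝ) + g p) n = (1 / (n : ℝ)) * cm (fun p => 1 + p * g p) n := by
  rw [← cm_inv n hn, ← cm_fun_mul]
  apply cm_congr
  intro p hp
  have hp0 : (p : ℝ) ≠ 0 := by exact_mod_cast (Nat.prime_of_mem_primeFactors hp).ne_zero
  field_simp

lemma cast_div_prime (n p : ℕ) (hp : p ∈ n.primeFactors) :
    ((n / p : ℕ) : ℝ) = (n : ℝ) / p :=
  Nat.cast_div (Nat.dvd_of_mem_primeFactors hp)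
    (by exact_mod_cast (Nat.prime_of_mem_primeFactors hp).ne_zero)

lemma div_ne_zero' (n p : ℕ) (hn : n ≠ 0) (hp : p ∈ n.primeFactors) : n / p ≠ 0 := by
  have := Nat.div_pos (Nat.le_of_dvd (Nat.pos_of_ne_zero hn) (Nat.dvd_of_mem_primeFactors hp))
    (Nat.prime_of_mem_primeFactors hp).pos
  omega

lemma DD_scale (n : ℕ) (hn : n ≠ 0) (g h : ℕ → ℝ) :
    (1 / (n : ℝ)) * DD (fun p => p * h p) g n =
      ∑ p ∈ n.primeFactors, (n.factorization p : ℝ) * (h p * (cm g (n / p) / ((n / p : ℕ) : ℝ))) := by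
  unfold DD
  rw [mul_sum]
  refine sum_congr rfl fun p hp => ?_
  rw [cast_div_prime n p hp]
  have hp0 : (p : ℝ) ≠ 0 := by exact_mod_cast (Nat.prime_of_mem_primeFactors hp).ne_zero
  have hn0 : (n : ℝ) ≠ 0 := by exact_mod_cast hn
  field_simp

lemma DD_scale' (n : ℕ) (hn : n ≠ 0) (g : ℕ → ℝ) :
    DD g (fun p => 1 / (p : ℝ) + g p) n =
      (1 / (n : ℝ)) * DD (fun p => p * g p) (fun p => 1 + p * g p) n := by
  rw [DD_scale n hn]
  unfold DD
  refine sum_congr rfl fun p hp => ?_
  rw [cm_scale (n / p) (div_ne_zero' n p hn hp)]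
  ring

/-- the Euler product bound -/
lemma euler_le (f : ℕ → ℝ) (Q : Finset ℕ) (hQ : ∀ q ∈ Q, q.Prime) (hf0 : ∀ q, 0 ≤ f q)
    (hf : ∀ q ∈ Q, f q ≤ 1 / 2) (D : Finset ℕ) (hD : ∀ d ∈ D, d ≠ 0 ∧ d.primeFactors ⊆ Q) :
    ∑ d ∈ D, cm f d ≤ Real.exp (2 * ∑ q ∈ Q, f q) := by
  set f' : ℕ → ℝ := fun p => if p ∈ Q then f p else 0 with hf'
  have hf'0 : ∀ p, 0 ≤ f' p := fun p => by
    simp only [hf']
    split_ifs
    · exact hf0 p
    · exact le_rfl
  let F : ℕ →* ℝ :=
    { toFun := fun n => if n = 0 then 0 else cm f' n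
      map_one' := by simp [cm_one]
      map_mul' := by
        intro m n
        by_cases hm : m = 0
        · simp [hm]
        by_cases hn : n = 0
        · simp [hn]
        rw [if_neg (mul_ne_zero hm hn), if_neg hm, if_neg hn, cm_mul f' m n hm hn] }
  have hF : ∀ n, F n = if n = 0 then 0 else cm f' n := fun n => rfl
  have hF0 : ∀ n, 0 ≤ F n := fun n => by
    rw [hF]
    split_ifs
    · exact le_rfl
    · exact cm_nonneg f' hf'0 n
  have hFp : ∀ {p : ℕ}, p.Prime → ‖F p‖ < 1 := by
    intro p hp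
    rw [hF, if_neg hp.ne_zero, cm_prime f' p hp, Real.norm_of_nonneg (hf'0 p)]
    simp only [hf']
    split_ifs with h
    · linarith [hf p h]
    · norm_num
  obtain ⟨hsum, hhas⟩ :=
    EulerProduct.summable_and_hasSum_factoredNumbers_prod_filter_prime_geometric hFp Q
  have hfilter : Q.filter Nat.Prime = Q := filter_true_of_mem hQ
  rw [hfilter] at hhas
  have h1 : ∑ d ∈ D, cm f d ≤ ∏ q ∈ Q, (1 - F q)⁻¹ := by
    have hmem : ∀ d ∈ D, d ∈ Nat.factoredNumbers Q := by
      intro d hd
      rw [Nat.mem_factoredNumbers']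
      intro p hp hpd
      exact (hD d hd).2 (Nat.mem_primeFactors.2 ⟨hp, hpd, (hD d hd).1⟩)
    have h2 : ∑ d ∈ D, cm f d = ∑ d ∈ D.attach.map ⟨fun d => (⟨d.1, hmem d.1 d.2⟩ :
        Nat.factoredNumbers Q), fun a b hab => Subtype.ext (by simpa using hab)⟩, F d := by
      rw [sum_map, ← sum_attach]
      refine sum_congr rfl fun d _ => ?_
      simp only [Function.Embedding.coeFn_mk]
      rw [hF, if_neg (hD d.1 d.2).1]
      apply cm_congr
      intro p hp
      simp only [hf']
      rw [if_pos ((hD d.1 d.2).2 hp)]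
    rw [h2]
    exact sum_le_hasSum _ (fun d _ => hF0 d) hhas
  refine h1.trans ?_
  rw [mul_sum, Real.exp_sum]
  apply Finset.prod_le_prod
  · intro q hq
    rw [inv_nonneg]
    have := hFp (hQ q hq)
    rw [Real.norm_of_nonneg (hF0 q)] at this
    linarith
  · intro q hq
    have e1 : F q = f q := by
      rw [hF, if_neg (hQ q hq).ne_zero, cm_prime f' q (hQ q hq)]
      simp only [hf']
      rw [if_pos hq]
    rw [e1]
    have h3 := hf q hq
    have h4 := hf0 q
    have h5 : (1 - f q)⁻¹ ≤ 1 + 2 * f q := by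
      rw [inv_le_comm₀ (by linarith) (by linarith), inv_eq_one_div, div_le_iff₀ (by linarith)]
      nlinarith
    have h6 := Real.add_one_le_exp (2 * f q)
    linarith

end Pool.Agent.V11197.CM
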