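import Pool.Agent.V11197.CM.Basic
import Pool.Agent.W76.MO.Stmts

/-!
# MP_768c9c_nt: completely multiplicative version of the system of `W76.MO`: statements
-/

set_option autoImplicit false

namespace Pool.Agent.W76.MO

open Finset Filter Topology
open scoped Classical
open Pool.Agent.V11197.CM (cm DD)

namespace Env

variable (E : Env)

/-- `∏_{p | n} (1 + 2 p g(p))`, with multiplicities -/
noncomputable def E2c (j n : ℕ) : ℝ := cm (fun p => 1 + 2 * (p * E.g j p)) n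

/-- the `R`-rough elements of a cell -/
noncomputable def csc (R i k : ℕ) : Finset ℕ := (cell E.δ i k).filter (fun n => Rough R n)

/-- (ES) -/
def ESumc : Prop := ∀ η : ℝ, 0 < η → ∃ R₀ : ℕ, ∀ R : ℕ, R₀ ≤ R → ∃ J : ℕ, ∀ j : ℕ, J ≤ j →
  ∀ M : ℕ, ∑ t ∈ (Icc 2 M).filter (fun t => Rough R t),
    E.E2c j t / t * (t : ℝ) ^ (-E.δ / 2) ≤ η

/-- (UP) -/
def UPartc : Prop := ∃ R₀ : ℕ, ∀ R : ℕ, R₀ ≤ R → ∃ J : ℕ, ∀ j : ℕ, J ≤ j → ∀ i : ℕ, j ≤ i →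
  ∀ k : ℕ, k < nc E.δ i →
    ∑ n ∈ E.csc R i k, ∑ p ∈ n.primeFactors.filter (fun p : ℕ => (2 : ℝ) ^ (3 / 5 * (i : ℝ)) < p),
      E.gu j p * (E.E2c j (n / p) / ((n / p : ℕ) : ℝ)) ≤
        (if k ∈ E.Bad i then 0 else E.w i) + E.w i / 16

/-- (HP) without multiplicities -/
def HPartc : Prop := ∃ R₀ : ℕ, ∀ R : ℕ, R₀ ≤ R → ∃ J : ℕ, ∀ j : ℕ, J ≤ j → ∀ i : ℕ, j ≤ i →
  ∀ k : ℕ, k < nc E.δ i →
    ∑ n ∈ E.csc R i k, ∑ q ∈ n.primeFactors.filter (fun q : ℕ => (2 : ℝ) ^ (1 / 20 * (i : ℝ)) < q),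
      E.gh j q * (E.E2c j (n / q) / ((n / q : ℕ) : ℝ)) ≤
        (if k ∈ E.Bad i then E.w i else 0) + 3 * (E.w i / 64)

/-- (HS) the contribution of the squares of the host primes -/
def HSqc : Prop := ∃ J : ℕ, ∀ j : ℕ, J ≤ j → ∀ R i k : ℕ, j ≤ i → k < nc E.δ i →
    ∑ n ∈ E.csc R i k, ∑ q ∈ n.primeFactors.filter (fun q : ℕ => (2 : ℝ) ^ (1 / 20 * (i : ℝ)) < q),
      ((n.factorization q : ℝ) - 1) * (E.gh j q * (E.E2c j (n / q) / ((n / q : ℕ) : ℝ))) ≤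
        E.w i / 64

/-- (SP) contribution of the small control primes -/
def SPartc : Prop := ∃ J : ℕ, ∀ j : ℕ, J ≤ j → ∀ i : ℕ, j ≤ i → ∀ k : ℕ, k < nc E.δ i →
    ∑ n ∈ cell E.δ i k,
      (1 / (n : ℝ)) * cm (fun p => 1 + 2 * (p * E.gs j i p)) n ≤ E.w i / 16

/-- the part of the host sum which comes from the bad cell `(i', k')` -/
noncomputable def HTc (j R i k i' k' : ℕ) (P : ℕ → ℕ → Prop) : ℝ :=
  ∑ u ∈ ((E.Host j i' k') ×ˢ (E.csc R i k)).filter (fun u : ℕ × ℕ =>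
      lp u.1 ∣ u.2 ∧ (2 : ℝ) ^ (1 / 20 * (i : ℝ)) < lp u.1 ∧ P u.1 u.2),
    E.w i' / ((E.Host j i' k').card : ℝ) * ((u.1 : ℝ) / u.2) * E.E2c j (u.2 / lp u.1)

/-- (H1) -/
def HP1c : Prop := ∃ J : ℕ, ∀ j : ℕ, J ≤ j → ∀ R i k : ℕ, j ≤ i → k < nc E.δ i →
  ∑ i' ∈ (range (2 * i + 3)).filter (fun i' : ℕ => j ≤ i' ∧ (i' : ℝ) < (1 - E.τ) * i),
    ∑ k' ∈ E.Bad i', E.HTc j R i k i' k' (fun _ _ => True) ≤ E.w i / 64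

/-- (HB) -/
def HPBc : Prop := ∃ J : ℕ, ∀ j : ℕ, J ≤ j → ∀ R i k : ℕ, j ≤ i → k < nc E.δ i →
  ∑ i' ∈ (range (2 * i + 3)).filter (fun i' : ℕ => j ≤ i' ∧ (1 - E.τ) * i ≤ (i' : ℝ)),
    ∑ k' ∈ E.Bad i', E.HTc j R i k i' k' (fun a b => ¬ a ∣ b) ≤ E.w i / 64

/-- (HA) -/
def HPAc : Prop := ∃ R₀ : ℕ, ∀ R : ℕ, R₀ ≤ R → ∃ J : ℕ, ∀ j : ℕ, J ≤ j → ∀ i k : ℕ, j ≤ i →
  k < nc E.δ i →
  ∑ i' ∈ (range (2 * i + 3)).filter (fun i' : ℕ => j ≤ i' ∧ (1 - E.τ) * i ≤ (i' : ℝ)),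
    ∑ k' ∈ E.Bad i', E.HTc j R i k i' k' (fun a b => a ∣ b) ≤
      (if k ∈ E.Bad i then E.w i else 0) + E.w i / 64

lemma E2c_nonneg (j : ℕ) (h0 : ∀ p : ℕ, 0 ≤ E.gu j p) (h0' : ∀ q : ℕ, 0 ≤ E.gh j q) (m : ℕ) :
    0 ≤ E.E2c j m := by
  unfold E2c
  apply Pool.Agent.V11197.CM.cm_nonneg
  intro p
  have : 0 ≤ E.g j p := add_nonneg (h0 p) (h0' p)
  positivity

lemma E2c_le (j : ℕ)
    (h0 : ∀ p : ℕ, 0 ≤ E.gu j p) (h0' : ∀ q : ℕ, 0 ≤ E.gh j q)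
    (hf : ∀ p : ℕ, p.Prime → 1 + 2 * (p * E.g j p) ≤ (p : ℝ) ^ (9 * E.δ)) (m : ℕ) (hm : 1 ≤ m) :
    E.E2c j m ≤ (m : ℝ) ^ (9 * E.δ) := by
  unfold E2c
  rw [← Pool.Agent.V11197.CM.cm_rpow m (by omega) (9 * E.δ)]
  apply Pool.Agent.V11197.CM.cm_le
  · intro p _
    have : 0 ≤ E.g j p := add_nonneg (h0 p) (h0' p)
    positivity
  · intro p hp
    exact hf p (Nat.prime_of_mem_primeFactors hp)

end Env

end Pool.Agent.W76.MO
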