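import Pool.Agent.V11197.CM.Defs
import Pool.Agent.W683.MO.SP
import Pool.Agent.W640.MO.H1

/-!
# The squares of the host primes
-/

set_option autoImplicit false

namespace Pool.Agent.V11197.CM

open Finset Filter Topology
open scoped Classical
open Pool.Agent.W76.MO

theorem hsq : ∀ E : Env, E.GBounds → E.HSqc := by
  intro E hGB
  have hδ := E.hδ
  have hτ := E.hτ
  have hδτ := E.hδ'
  have hτ1 := E.hτ'
  obtain ⟨J₁, hJ₁1, hJ₁⟩ := hGB
  obtain ⟨J₂, hJ₂⟩ := Pool.Agent.W683.MO.large (E.τ / 9) 768 41 (by positivity)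
  refine ⟨J₁ + J₂ + 2, fun j hj R i k hji hk => ?_⟩
  obtain ⟨-, h0, h0', hgu, hgh, hU, hH, hsum, -⟩ := hJ₁ j (by omega)
  have hf := Pool.Agent.W640.MO.factor_le E (by omega) hgu hgh hU hH
  have hi2 : (2 : ℝ) ≤ i := by exact_mod_cast (by omega : 2 ≤ i)
  have hi0 : (0 : ℝ) < i := by linarith
  set Q : Finset ℕ := (range (2 ^ (i + 1) + 1)).filter (fun q : ℕ =>
    q.Prime ∧ E.gh j q ≠ 0 ∧ (2 : ℝ) ^ (1 / 20 * (i : ℝ)) < q ∧ q * q ≤ 2 ^ (i + 1)) with hQ
  set B : ℝ := (2 * i) * (2 * (2 : ℝ) ^ (9 * E.δ * i) / 2 ^ i) with hB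
  have hB0 : 0 ≤ B := by positivity
  -- the terms
  have hterm : ∀ n ∈ E.csc R i k, ∑ q ∈ n.primeFactors.filter
      (fun q : ℕ => (2 : ℝ) ^ (1 / 20 * (i : ℝ)) < q),
      ((n.factorization q : ℝ) - 1) * (E.gh j q * (E.E2c j (n / q) / ((n / q : ℕ) : ℝ))) ≤
      ∑ q ∈ Q, if q * q ∣ n then B else 0 := by
    intro n hn
    unfold Env.csc at hn
    rw [mem_filter] at hn
    obtain ⟨hn1, hn2⟩ := Pool.Agent.W640.MO.cell_le hk hn.1
    have hnpos : 0 < n := by omega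
    have hn0 : (0 : ℝ) < n := by exact_mod_cast hnpos
    have key : ∀ q ∈ n.primeFactors.filter (fun q : ℕ => (2 : ℝ) ^ (1 / 20 * (i : ℝ)) < q),
        ((n.factorization q : ℝ) - 1) * (E.gh j q * (E.E2c j (n / q) / ((n / q : ℕ) : ℝ))) ≤
        if q ∈ Q ∧ q * q ∣ n then B else 0 := by
      intro q hq
      rw [mem_filter] at hq
      obtain ⟨hqf, hq20⟩ := hq
      have hqp := Nat.prime_of_mem_primeFactors hqf
      have hqd := Nat.dvd_of_mem_primeFactors hqf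
      have hqle := Nat.le_of_dvd hnpos hqd
      have hq0 : (0 : ℝ) < q := by exact_mod_cast hqp.pos
      have hdiv0 : n / q ≠ 0 := div_ne_zero' n q hnpos.ne' hqf
      have hdivR : (0 : ℝ) < ((n / q : ℕ) : ℝ) := by exact_mod_cast Nat.pos_of_ne_zero hdiv0
      have hE0 := E.E2c_nonneg j h0 h0' (n / q)
      by_cases hg : E.gh j q = 0
      · rw [hg, zero_mul, mul_zero]
        split_ifs
        · exact hB0
        · exact le_rfl
      have hv1 : 1 ≤ n.factorization q := (hqp.dvd_iff_one_le_factorization hnpos.ne').1 hqd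
      by_cases hv : n.factorization q = 1
      · rw [hv]
        push_cast
        rw [sub_self, zero_mul]
        split_ifs
        · exact hB0
        · exact le_rfl
      have hv2 : 2 ≤ n.factorization q := by omega
      have hqq : q * q ∣ n := by
        rw [← pow_two]
        exact (hqp.pow_dvd_iff_le_factorization hnpos.ne').2 hv2
      have hqq2 : q * q ≤ 2 ^ (i + 1) := (Nat.le_of_dvd hnpos hqq).trans hn2
      have hmem : q ∈ Q := by
        rw [hQ, mem_filter, mem_range]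
        exact ⟨by omega, hqp, hg, hq20, hqq2⟩
      rw [if_pos ⟨hmem, hqq⟩, hB]
      have hvle : n.factorization q ≤ i + 1 := by
        apply Nat.factorization_le_of_le_pow
        exact hn2.trans (Nat.pow_le_pow_left hqp.two_le _)
      have hvR : (n.factorization q : ℝ) - 1 ≤ 2 * i := by
        have : (n.factorization q : ℝ) ≤ i + 1 := by exact_mod_cast hvle
        linarith
      have hvR0 : 0 ≤ (n.factorization q : ℝ) - 1 := by
        have : (1 : ℝ) ≤ n.factorization q := by exact_mod_cast hv1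
        linarith
      have hgq : q * E.gh j q ≤ (q : ℝ) ^ (9 * E.δ) := by
        have h1 := (hH q hg).2
        have h2 : 0 ≤ (q : ℝ) * E.gh j q := mul_nonneg hq0.le (h0' q)
        linarith
      have hE2 := E.E2c_le j h0 h0' hf (n / q) (Nat.pos_of_ne_zero hdiv0)
      have hmain : E.gh j q * (E.E2c j (n / q) / ((n / q : ℕ) : ℝ)) ≤
          2 * (2 : ℝ) ^ (9 * E.δ * i) / 2 ^ i := by
        have e1 : E.gh j q * (E.E2c j (n / q) / ((n / q : ℕ) : ℝ)) =
            (q * E.gh j q) * E.E2c j (n / q) / n := by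
          rw [cast_div_prime n q hqf]
          field_simp
        rw [e1]
        have e2 : (q * E.gh j q) * E.E2c j (n / q) ≤ 2 * (2 : ℝ) ^ (9 * E.δ * i) := by
          calc (q * E.gh j q) * E.E2c j (n / q)
              ≤ (q : ℝ) ^ (9 * E.δ) * ((n / q : ℕ) : ℝ) ^ (9 * E.δ) :=
                mul_le_mul hgq hE2 hE0 (by positivity)
            _ = (n : ℝ) ^ (9 * E.δ) := by
                rw [← Real.mul_rpow hq0.le hdivR.le, cast_div_prime n q hqf]
                congr 1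
                field_simp
            _ ≤ ((2 : ℝ) ^ ((i : ℝ) + 1)) ^ (9 * E.δ) := by
                apply Real.rpow_le_rpow hn0.le _ (by positivity)
                rw [show ((i : ℝ) + 1) = ((i + 1 : ℕ) : ℝ) by push_cast; ring, Real.rpow_natCast]
                exact_mod_cast hn2
            _ = (2 : ℝ) ^ (9 * E.δ) * (2 : ℝ) ^ (9 * E.δ * i) := by
                rw [← Real.rpow_mul (by norm_num), ← Real.rpow_add (by norm_num)]
                congr 1
                ring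
            _ ≤ 2 * (2 : ℝ) ^ (9 * E.δ * i) := by
                apply mul_le_mul_of_nonneg_right _ (by positivity)
                calc (2 : ℝ) ^ (9 * E.δ) ≤ (2 : ℝ) ^ (1 : ℝ) :=
                      Real.rpow_le_rpow_of_exponent_le (by norm_num) (by linarith)
                  _ = 2 := Real.rpow_one 2
        have e3 : (2 : ℝ) ^ i ≤ n := by exact_mod_cast hn1.le
        exact div_le_div₀ (by positivity) e2 (by positivity) e3
      have hmain0 : 0 ≤ E.gh j q * (E.E2c j (n / q) / ((n / q : ℕ) : ℝ)) :=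
        mul_nonneg (h0' q) (div_nonneg hE0 hdivR.le)
      exact mul_le_mul hvR hmain hmain0 (by positivity)
    refine (sum_le_sum key).trans ?_
    rw [← sum_filter, ← sum_filter]
    apply sum_le_sum_of_subset_of_nonneg
    · intro q hq
      rw [mem_filter] at hq ⊢
      exact hq.2
    · intro q _ _
      exact hB0
  refine (sum_le_sum hterm).trans ?_
  rw [sum_comm]
  have hh0 : (0 : ℝ) ≤ hh E.δ i := Nat.cast_nonneg _
  have hcount : ∀ q ∈ Q, ∑ n ∈ E.csc R i k, (if q * q ∣ n then B else 0) ≤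
      B * ((q * E.gh j q) * (q : ℝ) ^ (-1 + E.τ / 4) * (3 * (2 : ℝ) ^ ((1 / 2 - E.τ / 8) * i))) := by
    intro q hq
    rw [hQ, mem_filter] at hq
    obtain ⟨_, hqp, hg, hq20, hqq⟩ := hq
    have hq1 : (1 : ℝ) ≤ q := by exact_mod_cast hqp.one_lt.le
    have hq0 : (0 : ℝ) < q := by linarith
    have hqg := (hgh q hg).2.2
    rw [← sum_filter, sum_const, nsmul_eq_mul, mul_comm]
    apply mul_le_mul_of_nonneg_left _ hB0
    have h1 : (((E.csc R i k).filter (fun n => q * q ∣ n)).card : ℝ) ≤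
        hh E.δ i / ((q * q : ℕ) : ℝ) + 1 := by
      have h2 := Pool.Agent.W683.MO.card_mult (2 ^ i + k * hh E.δ i) (hh E.δ i) (q * q)
        (Nat.mul_pos hqp.pos hqp.pos)
      refine le_trans ?_ h2
      rw [Nat.cast_le]
      apply card_le_card
      intro n hn
      rw [mem_filter] at hn ⊢
      refine ⟨?_, hn.2⟩
      have h3 := hn.1
      unfold Env.csc cell at h3
      rw [mem_filter, mem_Ioc] at h3
      rw [mem_Ioc]
      have h4 : (k + 1) * hh E.δ i = k * hh E.δ i + hh E.δ i := by ring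
      omega
    refine h1.trans ?_
    -- `q^(-1+τ/4)` is large
    have hqle : (q : ℝ) ≤ (2 : ℝ) ^ ((i + 1 : ℝ) / 2) := by
      have h2 : (q : ℝ) * q ≤ (2 : ℝ) ^ ((i : ℝ) + 1) := by
        rw [show ((i : ℝ) + 1) = ((i + 1 : ℕ) : ℝ) by push_cast; ring, Real.rpow_natCast]
        exact_mod_cast hqq
      have h3 : (2 : ℝ) ^ ((i : ℝ) + 1) = (2 : ℝ) ^ ((i + 1 : ℝ) / 2) * (2 : ℝ) ^ ((i + 1 : ℝ) / 2) := by
        rw [← Real.rpow_add (by norm_num)]
        congr 1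
        ring
      rw [h3] at h2
      have h4 : (0 : ℝ) < (2 : ℝ) ^ ((i + 1 : ℝ) / 2) := by positivity
      nlinarith
    have hone : (1 : ℝ) ≤ (q : ℝ) ^ (-1 + E.τ / 4) * (2 * (2 : ℝ) ^ ((1 / 2 - E.τ / 8) * i)) := by
      have h2 : (q : ℝ) ^ (1 - E.τ / 4) ≤ 2 * (2 : ℝ) ^ ((1 / 2 - E.τ / 8) * i) := by
        calc (q : ℝ) ^ (1 - E.τ / 4) ≤ ((2 : ℝ) ^ ((i + 1 : ℝ) / 2)) ^ (1 - E.τ / 4) :=
              Real.rpow_le_rpow hq0.le hqle (by linarith)
          _ = (2 : ℝ) ^ (((i + 1 : ℝ) / 2) * (1 - E.τ / 4)) := by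
              rw [← Real.rpow_mul (by norm_num)]
          _ ≤ (2 : ℝ) ^ (1 + (1 / 2 - E.τ / 8) * i) := by
              apply Real.rpow_le_rpow_of_exponent_le (by norm_num)
              nlinarith
          _ = _ := by rw [Real.rpow_add (by norm_num), Real.rpow_one]
      have h3 : (q : ℝ) ^ (-1 + E.τ / 4) * (q : ℝ) ^ (1 - E.τ / 4) = 1 := by
        rw [← Real.rpow_add hq0]
        rw [show -1 + E.τ / 4 + (1 - E.τ / 4) = 0 by ring, Real.rpow_zero]
      calc (1 : ℝ) = (q : ℝ) ^ (-1 + E.τ / 4) * (q : ℝ) ^ (1 - E.τ / 4) := h3.symm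
        _ ≤ _ := mul_le_mul_of_nonneg_left h2 (by positivity)
    have htwo : (hh E.δ i : ℝ) / ((q * q : ℕ) : ℝ) ≤
        (q : ℝ) ^ (-1 + E.τ / 4) * (2 : ℝ) ^ ((1 / 2 - E.τ / 8) * i) := by
      have h2 : (hh E.δ i : ℝ) ≤ (2 : ℝ) ^ ((1 / 2 - E.δ) * i) :=
        Pool.Agent.W640.MO.hh_le E.δ (by linarith) i
      have h3 : (1 : ℝ) / q ≤ (q : ℝ) ^ (-1 + E.τ / 4) := by
        rw [one_div, ← Real.rpow_neg_one]
        exact Real.rpow_le_rpow_of_exponent_le hq1 (by linarith)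
      have h4 : (1 : ℝ) / q ≤ (2 : ℝ) ^ (-(1 / 20) * (i : ℝ)) := by
        rw [neg_mul, Real.rpow_neg (by norm_num), one_div]
        exact inv_anti₀ (by positivity) hq20.le
      have h5 : (2 : ℝ) ^ ((1 / 2 - E.δ) * i) * (2 : ℝ) ^ (-(1 / 20) * (i : ℝ)) ≤
          (2 : ℝ) ^ ((1 / 2 - E.τ / 8) * i) := by
        rw [← Real.rpow_add (by norm_num)]
        apply Real.rpow_le_rpow_of_exponent_le (by norm_num)
        nlinarith
      push_cast
      calc (hh E.δ i : ℝ) / ((q : ℝ) * q) = (hh E.δ i : ℝ) * (1 / q) * (1 / q) := by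
            field_simp
        _ ≤ (2 : ℝ) ^ ((1 / 2 - E.δ) * i) * (2 : ℝ) ^ (-(1 / 20) * (i : ℝ)) *
            (q : ℝ) ^ (-1 + E.τ / 4) := by gcongr
        _ ≤ (2 : ℝ) ^ ((1 / 2 - E.τ / 8) * i) * (q : ℝ) ^ (-1 + E.τ / 4) :=
            mul_le_mul_of_nonneg_right h5 (by positivity)
        _ = _ := by ring
    have h6 : 0 ≤ (q : ℝ) ^ (-1 + E.τ / 4) * (3 * (2 : ℝ) ^ ((1 / 2 - E.τ / 8) * i)) := by
      positivity
    calc (hh E.δ i : ℝ) / ((q * q : ℕ) : ℝ) + 1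
        ≤ (q : ℝ) ^ (-1 + E.τ / 4) * (3 * (2 : ℝ) ^ ((1 / 2 - E.τ / 8) * i)) := by linarith
      _ ≤ (q * E.gh j q) * ((q : ℝ) ^ (-1 + E.τ / 4) * (3 * (2 : ℝ) ^ ((1 / 2 - E.τ / 8) * i))) := by
          nlinarith
      _ = _ := by ring
  refine (sum_le_sum hcount).trans ?_
  rw [← mul_sum, ← sum_mul]
  have hj1 : (1 : ℝ) ≤ j := by exact_mod_cast (by omega : 1 ≤ j)
  have hs := hsum Q
  have hs1 : ∑ q ∈ Q, (q * E.gh j q) * (q : ℝ) ^ (-1 + E.τ / 4) ≤ 1 := by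
    refine hs.trans ?_
    rw [div_le_one (by linarith)]
    exact hj1
  have hstep : B * ((∑ q ∈ Q, (q * E.gh j q) * (q : ℝ) ^ (-1 + E.τ / 4)) *
      (3 * (2 : ℝ) ^ ((1 / 2 - E.τ / 8) * i))) ≤ B * (1 * (3 * (2 : ℝ) ^ ((1 / 2 - E.τ / 8) * i))) := by
    gcongr
  refine hstep.trans ?_
  rw [hB]
  have hbig := hJ₂ i (by omega)
  unfold Env.w
  rw [div_div, le_div_iff₀ (by positivity)]
  have e1 : (2 : ℝ) ^ i = (2 : ℝ) ^ (i : ℝ) := (Real.rpow_natCast 2 i).symm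
  have e2 : (2 : ℝ) ^ (9 * E.δ * i) / (2 : ℝ) ^ (i : ℝ) * (2 : ℝ) ^ ((1 / 2 - E.τ / 8) * i) =
      (2 : ℝ) ^ (9 * E.δ * i - i + (1 / 2 - E.τ / 8) * i) := by
    rw [← Real.rpow_sub (by norm_num), ← Real.rpow_add (by norm_num)]
  have e3 : (2 : ℝ) ^ (9 * E.δ * i - i + (1 / 2 - E.τ / 8) * i) * (2 : ℝ) ^ (E.τ / 9 * i) ≤
      (2 : ℝ) ^ (-(1 / 2 + E.δ / 2) * i) := by
    rw [← Real.rpow_add (by norm_num)]
    apply Real.rpow_le_rpow_of_exponent_le (by norm_num)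
    nlinarith
  have e4 : (0 : ℝ) < (2 : ℝ) ^ (9 * E.δ * i - i + (1 / 2 - E.τ / 8) * i) := by positivity
  calc 2 * (i : ℝ) * (2 * (2 : ℝ) ^ (9 * E.δ * i) / 2 ^ i) *
        (1 * (3 * (2 : ℝ) ^ ((1 / 2 - E.τ / 8) * i))) * ((i : ℝ) ^ 40 * 64)
      = ((2 : ℝ) ^ (9 * E.δ * i) / (2 : ℝ) ^ (i : ℝ) * (2 : ℝ) ^ ((1 / 2 - E.τ / 8) * i)) *
        (768 * (i : ℝ) ^ 41) := by rw [← e1]; ring
    _ = (2 : ℝ) ^ (9 * E.δ * i - i + (1 / 2 - E.τ / 8) * i) * (768 * (i : ℝ) ^ 41) := by rw [e2]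
    _ ≤ (2 : ℝ) ^ (9 * E.δ * i - i + (1 / 2 - E.τ / 8) * i) * (2 : ℝ) ^ (E.τ / 9 * i) :=
        mul_le_mul_of_nonneg_left hbig e4.le
    _ ≤ _ := e3

end Pool.Agent.V11197.CM
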