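import Pool.Agent.V11197.CM.Defs
import Pool.Agent.W76.MO.Asm3

/-!
# The key inequality for the cells
-/

set_option autoImplicit false

namespace Pool.Agent.W76.MO

open Finset
open scoped Classical
open Pool.Agent.V11197.CM (cm DD DD_scale div_ne_zero' DD_nonneg one_le_cm cm_nonneg)

namespace Env

variable (E : Env)

/-- total mass of first order at `n` -/
noncomputable def tauc (j n : ℕ) : ℝ :=
  (1 / (n : ℝ)) * DD (fun p => p * E.g j p) (fun p => 1 + p * E.g j p) n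

/-- total mass at `n` -/
noncomputable def massc (j n : ℕ) : ℝ := (1 / (n : ℝ)) * cm (fun p => 1 + p * E.g j p) n

/-- the large part of the mass at `n` -/
noncomputable def bigc (j i n : ℕ) : ℝ :=
  ∑ p ∈ n.primeFactors.filter (fun p : ℕ => (2 : ℝ) ^ (3 / 5 * (i : ℝ)) < p),
      E.gu j p * (E.E2c j (n / p) / ((n / p : ℕ) : ℝ)) +
  ∑ q ∈ n.primeFactors.filter (fun q : ℕ => (2 : ℝ) ^ (1 / 20 * (i : ℝ)) < q),
      (n.factorization q : ℝ) * (E.gh j q * (E.E2c j (n / q) / ((n / q : ℕ) : ℝ)))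

lemma bigc_eq (j i n : ℕ) (hn : n ≠ 0) (hi : 5 ≤ i) (hni : n ≤ 2 ^ (i + 1)) :
    (1 / (n : ℝ)) * DD (fun p => p * E.gl j i p)
      (fun q => 1 + 2 * (q * E.gl j i q + q * E.gs j i q)) n = E.bigc j i n := by
  rw [DD_scale n hn (fun q => 1 + 2 * (q * E.gl j i q + q * E.gs j i q)) (E.gl j i)]
  unfold bigc
  rw [sum_filter, sum_filter, ← sum_add_distrib]
  refine sum_congr rfl fun p hp => ?_
  have h1 : cm (fun q => 1 + 2 * (q * E.gl j i q + q * E.gs j i q)) (n / p) = E.E2c j (n / p) := by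
    unfold E2c
    congr 1
    funext q
    rw [← E.gl_add_gs j i q]
    ring
  rw [h1]
  have hpp := Nat.prime_of_mem_primeFactors hp
  have hpd := Nat.dvd_of_mem_primeFactors hp
  have hv : (2 : ℝ) ^ (3 / 5 * (i : ℝ)) < p → n.factorization p = 1 := by
    intro h
    have hv1 : 1 ≤ n.factorization p := (hpp.dvd_iff_one_le_factorization hn).1 hpd
    by_contra h2
    have hv2 : 2 ≤ n.factorization p := by omega
    have hqq : p ^ 2 ∣ n := (hpp.pow_dvd_iff_le_factorization hn).2 hv2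
    have h3 : p ^ 2 ≤ 2 ^ (i + 1) := (Nat.le_of_dvd (Nat.pos_of_ne_zero hn) hqq).trans hni
    have h4 : (p : ℝ) ^ 2 ≤ 2 ^ (i + 1) := by exact_mod_cast h3
    have h5 : (2 : ℝ) ^ (i + 1) ≤ ((2 : ℝ) ^ (3 / 5 * (i : ℝ))) ^ 2 := by
      rw [← Real.rpow_natCast 2 (i + 1), ← Real.rpow_natCast _ 2, ← Real.rpow_mul (by norm_num)]
      apply Real.rpow_le_rpow_of_exponent_le (by norm_num)
      have : (5 : ℝ) ≤ i := by exact_mod_cast hi
      push_cast
      linarith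
    have h6 : (0 : ℝ) < (2 : ℝ) ^ (3 / 5 * (i : ℝ)) := by positivity
    nlinarith
  unfold gl
  by_cases k1 : (2 : ℝ) ^ (3 / 5 * (i : ℝ)) < p
  · rw [hv k1]
    by_cases k2 : (2 : ℝ) ^ (1 / 20 * (i : ℝ)) < p
    · simp only [if_pos k1, if_pos k2]
      push_cast
      ring
    · simp only [if_pos k1, if_neg k2]
      push_cast
      ring
  · by_cases k2 : (2 : ℝ) ^ (1 / 20 * (i : ℝ)) < p
    · simp only [if_neg k1, if_pos k2]
      ring
    · simp only [if_neg k1, if_neg k2]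
      ring

/-- pointwise bounds -/
lemma pointc (j i n : ℕ) (hu : ∀ p, 0 ≤ E.gu j p) (hh : ∀ p, 0 ≤ E.gh j p) (hn : n ≠ 0)
    (hi : 5 ≤ i) (hni : n ≤ 2 ^ (i + 1)) :
    E.tauc j n ≤ E.bigc j i n + (1 / (n : ℝ)) * cm (fun p => 1 + 2 * (p * E.gs j i p)) n ∧
    E.massc j n ≤ 2 * E.bigc j i n +
      (1 / (n : ℝ)) * cm (fun p => 1 + 2 * (p * E.gs j i p)) n ∧
    0 ≤ E.tauc j n := by
  have hs := Pool.Agent.V11197.CM.split_all (fun p => p * E.gl j i p) (fun p => p * E.gs j i p)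
    (fun p => mul_nonneg (Nat.cast_nonneg p) (E.gl_nonneg j i p (hu p) (hh p)))
    (fun p => mul_nonneg (Nat.cast_nonneg p) (E.gs_nonneg j i p (hu p) (hh p))) n hn
  have e1 : (fun p : ℕ => (p : ℝ) * E.gl j i p + (p : ℝ) * E.gs j i p) = fun p : ℕ => (p : ℝ) * E.g j p := by
    funext p
    rw [← E.gl_add_gs j i p]; ring
  have e2 : (fun p : ℕ => 1 + ((p : ℝ) * E.gl j i p + (p : ℝ) * E.gs j i p)) =
      fun p : ℕ => 1 + (p : ℝ) * E.g j p := by
    funext p
    rw [← E.gl_add_gs j i p]; ring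
  have hbig := E.bigc_eq j i n hn hi hni
  have hn1 : (0 : ℝ) ≤ 1 / (n : ℝ) := by positivity
  obtain ⟨_, h1, h2⟩ := hs
  rw [e2, e1] at h1 h2
  have hg0 : ∀ p, 0 ≤ E.g j p := fun p => by
    rw [← E.gl_add_gs j i p]
    exact add_nonneg (E.gl_nonneg j i p (hu p) (hh p)) (E.gs_nonneg j i p (hu p) (hh p))
  have hT : 0 ≤ DD (fun p : ℕ => (p : ℝ) * E.g j p) (fun p => 1 + p * E.g j p) n :=
    DD_nonneg _ _ (fun p => mul_nonneg (Nat.cast_nonneg p) (hg0 p))
      (fun p => by have := mul_nonneg (Nat.cast_nonneg (α := ℝ) p) (hg0 p); linarith) n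
  refine ⟨?_, ?_, mul_nonneg hn1 hT⟩
  · unfold tauc
    refine (mul_le_mul_of_nonneg_left h1 hn1).trans (le_of_eq ?_)
    rw [mul_add, ← hbig]
  · unfold massc
    have h3 : cm (fun p => 1 + p * E.g j p) n ≤
        2 * DD (fun p => p * E.gl j i p)
          (fun q => 1 + 2 * (q * E.gl j i q + q * E.gs j i q)) n +
        cm (fun p => 1 + 2 * (p * E.gs j i p)) n := by linarith
    refine (mul_le_mul_of_nonneg_left h3 hn1).trans (le_of_eq ?_)
    rw [mul_add, ← hbig]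
    ring

/-- the key inequality for the cells, packaged -/
structure Keyc (R j : ℕ) : Prop where
  u0 : ∀ p, 0 ≤ E.gu j p
  h0 : ∀ p, 0 ≤ E.gh j p
  tau_cell : ∀ i k : ℕ, j ≤ i → k < nc E.δ i →
    ∑ n ∈ E.csc R i k, E.tauc j n ≤ E.w i + E.w i / 4
  mass_cell : ∀ i k : ℕ, j ≤ i → k < nc E.δ i → ∑ n ∈ E.csc R i k, E.massc j n ≤ 4 * E.w i
  inv_cell : ∀ i k : ℕ, j ≤ i → k < nc E.δ i → ∑ n ∈ E.csc R i k, 1 / (n : ℝ) ≤ E.w i / 4

theorem keyc (hGB : E.GBounds) (hU : E.UPartc) (hH : E.HPartc) (hQ : E.HSqc) (hS : E.SPartc) :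
    ∃ R₀ : ℕ, ∀ R : ℕ, R₀ ≤ R → ∃ J : ℕ, ∀ j : ℕ, J ≤ j → E.Keyc R j := by
  obtain ⟨J0, hJ0, hGB⟩ := hGB
  obtain ⟨R1, hU⟩ := hU
  obtain ⟨R2, hH⟩ := hH
  obtain ⟨J3, hS⟩ := hS
  obtain ⟨J4, hQ⟩ := hQ
  refine ⟨max R1 R2, fun R hR => ?_⟩
  obtain ⟨J1, hU⟩ := hU R ((le_max_left _ _).trans hR)
  obtain ⟨J2, hH⟩ := hH R ((le_max_right _ _).trans hR)
  refine ⟨J0 + J1 + J2 + J3 + J4 + 5, fun j hj => ?_⟩
  obtain ⟨_, hu0, hh0, _⟩ := hGB j (by omega)
  have hloc : ∀ i k n : ℕ, k < nc E.δ i → n ∈ E.csc R i k → n ≠ 0 ∧ n ≤ 2 ^ (i + 1) := by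
    intro i k n hk hn
    unfold csc at hn
    have h := cell_loc E.δ E.hδ i k n hk (mem_filter.1 hn).1
    exact ⟨by omega, h.2.1⟩
  -- the three sums over a cell
  have hbig : ∀ i k : ℕ, j ≤ i → k < nc E.δ i →
      ∑ n ∈ E.csc R i k, E.bigc j i n ≤ E.w i + E.w i / 8 := by
    intro i k hi hk
    have a1 := hU j (by omega) i hi k hk
    have a2 := hH j (by omega) i hi k hk
    have a3 := hQ j (by omega) R i k hi hk
    have e : ∑ n ∈ E.csc R i k, E.bigc j i n =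
        ∑ n ∈ E.csc R i k, ∑ p ∈ n.primeFactors.filter
          (fun p : ℕ => (2 : ℝ) ^ (3 / 5 * (i : ℝ)) < p),
            E.gu j p * (E.E2c j (n / p) / ((n / p : ℕ) : ℝ)) +
        (∑ n ∈ E.csc R i k, ∑ q ∈ n.primeFactors.filter
          (fun q : ℕ => (2 : ℝ) ^ (1 / 20 * (i : ℝ)) < q),
            E.gh j q * (E.E2c j (n / q) / ((n / q : ℕ) : ℝ)) +
        ∑ n ∈ E.csc R i k, ∑ q ∈ n.primeFactors.filter
          (fun q : ℕ => (2 : ℝ) ^ (1 / 20 * (i : ℝ)) < q),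
            ((n.factorization q : ℝ) - 1) *
              (E.gh j q * (E.E2c j (n / q) / ((n / q : ℕ) : ℝ)))) := by
      unfold bigc
      rw [sum_add_distrib, ← sum_add_distrib (s := E.csc R i k)
        (f := fun n => ∑ q ∈ n.primeFactors.filter
          (fun q : ℕ => (2 : ℝ) ^ (1 / 20 * (i : ℝ)) < q),
            E.gh j q * (E.E2c j (n / q) / ((n / q : ℕ) : ℝ)))]
      congr 1
      refine sum_congr rfl fun n _ => ?_
      rw [← sum_add_distrib]
      refine sum_congr rfl fun q _ => ?_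
      ring
    rw [e]
    refine (add_le_add a1 (add_le_add a2 a3)).trans (le_of_eq ?_)
    split_ifs <;> ring
  have hsm : ∀ i k : ℕ, j ≤ i → k < nc E.δ i →
      ∑ n ∈ E.csc R i k, (1 / (n : ℝ)) * cm (fun p => 1 + 2 * (p * E.gs j i p)) n ≤
        E.w i / 16 := by
    intro i k hi hk
    refine le_trans (sum_le_sum_of_subset_of_nonneg ?_ ?_) (hS j (by omega) i hi k hk)
    · intro n hn
      unfold csc at hn
      exact (mem_filter.1 hn).1
    · intro n _ _
      refine mul_nonneg (by positivity) (cm_nonneg _ (fun p => ?_) n)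
      have := mul_nonneg (Nat.cast_nonneg (α := ℝ) p) (E.gs_nonneg j i p (hu0 p) (hh0 p))
      linarith
  refine ⟨hu0, hh0, ?_, ?_, ?_⟩
  · intro i k hi hk
    have hw := E.w_pos i (by omega)
    calc ∑ n ∈ E.csc R i k, E.tauc j n
        ≤ ∑ n ∈ E.csc R i k, (E.bigc j i n +
            (1 / (n : ℝ)) * cm (fun p => 1 + 2 * (p * E.gs j i p)) n) :=
          sum_le_sum fun n hn => (E.pointc j i n hu0 hh0 (hloc i k n hk hn).1 (by omega)
            (hloc i k n hk hn).2).1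
      _ ≤ (E.w i + E.w i / 8) + E.w i / 16 := by
          rw [sum_add_distrib]
          exact add_le_add (hbig i k hi hk) (hsm i k hi hk)
      _ ≤ _ := by linarith
  · intro i k hi hk
    have hw := E.w_pos i (by omega)
    calc ∑ n ∈ E.csc R i k, E.massc j n
        ≤ ∑ n ∈ E.csc R i k, (2 * E.bigc j i n +
            (1 / (n : ℝ)) * cm (fun p => 1 + 2 * (p * E.gs j i p)) n) :=
          sum_le_sum fun n hn => (E.pointc j i n hu0 hh0 (hloc i k n hk hn).1 (by omega)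
            (hloc i k n hk hn).2).2.1
      _ ≤ 2 * (E.w i + E.w i / 8) + E.w i / 16 := by
          rw [sum_add_distrib, ← mul_sum]
          exact add_le_add (mul_le_mul_of_nonneg_left (hbig i k hi hk) (by norm_num))
            (hsm i k hi hk)
      _ ≤ _ := by linarith
  · intro i k hi hk
    have hw := E.w_pos i (by omega)
    calc ∑ n ∈ E.csc R i k, 1 / (n : ℝ)
        ≤ ∑ n ∈ E.csc R i k, (1 / (n : ℝ)) * cm (fun p => 1 + 2 * (p * E.gs j i p)) n := by
          refine sum_le_sum fun n _ => ?_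
          have h1 := one_le_cm (fun p => 1 + 2 * (p * E.gs j i p)) (fun p => by
            have := mul_nonneg (Nat.cast_nonneg (α := ℝ) p) (E.gs_nonneg j i p (hu0 p) (hh0 p))
            linarith) n
          have h2 : (0 : ℝ) ≤ 1 / (n : ℝ) := by positivity
          nlinarith
      _ ≤ E.w i / 16 := hsm i k hi hk
      _ ≤ _ := by linarith

end Env

end Pool.Agent.W76.MO
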