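import Pool.Agent.V11197.CM.SPA

/-!
# Small control primes, part 2
-/

set_option autoImplicit false

namespace Pool.Agent.V11197.CM

open Finset Filter Topology
open scoped Classical
open Pool.Agent.W76.MO
open Pool.Agent.W683.MO (large card_mult gu_nonneg gh_nonneg cell_sub hh_posR lt_hh hh_le δ_half
  exp_id1 w_nonneg)

/-- the `Q`-part of a number -/
lemma part (Q : Finset ℕ) (hQ : ∀ q ∈ Q, q.Prime) (c : ℕ → ℝ) (n : ℕ) (hn : n ≠ 0) :
    ∃ d : ℕ, d ≠ 0 ∧ d ∣ n ∧ d.primeFactors ⊆ Q ∧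
      cm (fun p => if p ∈ Q then c p else 1) n = cm c d := by
  induction n, hn using ind with
  | h1 => exact ⟨1, one_ne_zero, dvd_refl 1, by simp, by simp [cm_one]⟩
  | h2 a n ha hn ih =>
    obtain ⟨d, hd0, hdn, hdQ, hdc⟩ := ih
    by_cases haQ : a ∈ Q
    · refine ⟨a * d, mul_ne_zero ha.ne_zero hd0, Nat.mul_dvd_mul_left a hdn, ?_, ?_⟩
      · rw [Nat.primeFactors_mul ha.ne_zero hd0, ha.primeFactors]
        intro p hp
        rw [mem_union, mem_singleton] at hp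
        rcases hp with rfl | hp
        · exact haQ
        · exact hdQ hp
      · rw [cm_mul _ a n ha.ne_zero hn, cm_mul _ a d ha.ne_zero hd0, cm_prime _ a ha,
          cm_prime _ a ha, hdc, if_pos haQ]
    · refine ⟨d, hd0, hdn.mul_left a, hdQ, ?_⟩
      rw [cm_mul _ a n ha.ne_zero hn, cm_prime _ a ha, if_neg haQ, one_mul, hdc]

/-- a divisor of the right size -/
lemma divisor (Q : Finset ℕ) (y Z1 Z2 : ℝ) (hy : ∀ q ∈ Q, (q : ℝ) ≤ y) (hZ1 : 1 ≤ Z1)
    (hZ2 : Z1 * y ≤ Z2) (n : ℕ) (hn : n ≠ 0) (hnQ : n.primeFactors ⊆ Q) (hnZ : Z1 < n) :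
    ∃ d : ℕ, d ≠ 0 ∧ d ∣ n ∧ Z1 < d ∧ (d : ℝ) ≤ Z2 := by
  induction n, hn using ind with
  | h1 =>
    push_cast at hnZ
    linarith
  | h2 a n ha hn ih =>
    rw [Nat.primeFactors_mul ha.ne_zero hn, ha.primeFactors] at hnQ
    have haQ : a ∈ Q := hnQ (mem_union_left _ (mem_singleton_self a))
    by_cases h : Z1 < n
    · obtain ⟨d, h1, h2, h3, h4⟩ := ih (subset_union_right.trans hnQ) h
      exact ⟨d, h1, h2.mul_left a, h3, h4⟩
    · push Not at h
      refine ⟨a * n, mul_ne_zero ha.ne_zero hn, dvd_refl _, hnZ, ?_⟩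
      have h1 := hy a haQ
      have h2 : (0 : ℝ) ≤ a := Nat.cast_nonneg a
      have h3 : (0 : ℝ) ≤ n := Nat.cast_nonneg n
      push_cast
      nlinarith

/-- (B), pointwise -/
theorem B_point (c : ℕ → ℝ) (hc : ∀ q, 1 ≤ c q) (Q : Finset ℕ) (hQ : ∀ q ∈ Q, q.Prime)
    (θ Z1 Z2 K y : ℝ) (hθ : 0 ≤ θ) (hcθ : ∀ q ∈ Q, c q ≤ (q : ℝ) ^ θ)
    (hy : ∀ q ∈ Q, (q : ℝ) ≤ y) (hZ1 : 1 ≤ Z1) (hZ2 : Z1 * y ≤ Z2) (n N : ℕ) (hn : 1 ≤ n)
    (hnN : n ≤ N) (hK : (n : ℝ) ^ θ ≤ K) :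
    cm (fun p => if p ∈ Q then c p else 1) n ≤
      ∑ d ∈ (Icc 1 N).filter (fun d : ℕ => d.primeFactors ⊆ Q ∧ (d : ℝ) ≤ Z1),
        cm c d * (if d ∣ n then 1 else 0) +
      K * ∑ d ∈ (Icc 1 N).filter (fun d : ℕ => d.primeFactors ⊆ Q ∧ Z1 < (d : ℝ) ∧ (d : ℝ) ≤ Z2),
        (if d ∣ n then (1 : ℝ) else 0) := by
  have hK0 : 0 ≤ K := le_trans (by positivity) hK
  have hc0 : ∀ q, 0 ≤ c q := fun q => le_trans zero_le_one (hc q)
  have hn1 : 0 ≤ ∑ d ∈ (Icc 1 N).filter (fun d : ℕ => d.primeFactors ⊆ Q ∧ (d : ℝ) ≤ Z1),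
        cm c d * (if d ∣ n then 1 else 0) := by
    apply sum_nonneg
    intro d _
    have := cm_nonneg c hc0 d
    split_ifs <;> simp [this]
  have hn2 : 0 ≤ ∑ d ∈ (Icc 1 N).filter (fun d : ℕ => d.primeFactors ⊆ Q ∧ Z1 < (d : ℝ) ∧
      (d : ℝ) ≤ Z2), (if d ∣ n then (1 : ℝ) else 0) := by
    apply sum_nonneg
    intro d _
    split_ifs <;> simp
  obtain ⟨d, hd0, hdn, hdQ, hdc⟩ := part Q hQ c n (by omega)
  rw [hdc]
  have hdN : d ≤ N := (Nat.le_of_dvd (by omega) hdn).trans hnN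
  by_cases hcase : (d : ℝ) ≤ Z1
  · have h1 := single_le_sum (f := fun d => cm c d * (if d ∣ n then (1 : ℝ) else 0))
      (s := (Icc 1 N).filter (fun d : ℕ => d.primeFactors ⊆ Q ∧ (d : ℝ) ≤ Z1)) (fun d _ => by
        have := cm_nonneg c hc0 d
        try dsimp only
        split_ifs <;> simp [this]) (a := d) (by
        rw [mem_filter, mem_Icc]
        exact ⟨⟨by omega, hdN⟩, hdQ, hcase⟩)
    simp only [if_pos hdn, mul_one] at h1
    have h2 := mul_nonneg hK0 hn2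
    linarith
  · push Not at hcase
    obtain ⟨e, he0, hed, he1, he2⟩ := divisor Q y Z1 Z2 hy hZ1 hZ2 d hd0 hdQ hcase
    have h1 : cm c d ≤ K := by
      have h2 : cm c d ≤ cm (fun p => (p : ℝ) ^ θ) d :=
        cm_le c _ d (fun p _ => hc0 p) (fun p hp => hcθ p (hdQ hp))
      rw [cm_rpow d hd0] at h2
      refine h2.trans (le_trans ?_ hK)
      apply Real.rpow_le_rpow (Nat.cast_nonneg d) _ hθ
      exact_mod_cast Nat.le_of_dvd (by omega) hdn
    have hen := hed.trans hdn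
    have h3 := single_le_sum (f := fun d : ℕ => (if d ∣ n then (1 : ℝ) else 0))
      (s := (Icc 1 N).filter (fun d : ℕ => d.primeFactors ⊆ Q ∧ Z1 < (d : ℝ) ∧ (d : ℝ) ≤ Z2))
      (fun d _ => by
        try dsimp only
        split_ifs <;> simp) (a := e) (by
        rw [mem_filter, mem_Icc]
        exact ⟨⟨by omega, (Nat.le_of_dvd (by omega) hen).trans hnN⟩,
          (Nat.primeFactors_mono hed hd0).trans hdQ, he1, he2⟩)
    simp only [if_pos hen] at h3
    have h4 := mul_le_mul_of_nonneg_left h3 hK0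
    rw [mul_one] at h4
    linarith

/-- (B) -/
theorem B_bound (E : Env) (hG : E.GBounds) : ∃ J : ℕ, 1 ≤ J ∧ ∀ j : ℕ, J ≤ j → ∀ i : ℕ, j ≤ i →
    ∀ k : ℕ, k < nc E.δ i → ∑ n ∈ cell E.δ i k,
      cm (fun p => if (p : ℝ) ≤ (2 : ℝ) ^ (1 / 20 * (i : ℝ)) then 1 + 2 * (p * E.gh j p) else 1) n
        ≤ 5 * hh E.δ i := by
  have hδ := E.hδ
  have hδt := E.hδ'
  have hτ := E.hτ
  have hτ' := E.hτ'
  obtain ⟨J0, hJ0, hJ⟩ := hG
  obtain ⟨J1, hJ1⟩ := large (E.τ / 16 - 9 * E.δ) 8 0 (by linarith)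
  obtain ⟨J2, hJ2⟩ := large (1 / 5 - E.δ) 2 0 (by linarith)
  refine ⟨J0 + J1 + J2 + 12, by omega, fun j hj i hij k hk => ?_⟩
  obtain ⟨-, -, g3, -, g5, -, g7, g8, -⟩ := hJ j (by omega)
  have hjR : (12 : ℝ) ≤ j := by exact_mod_cast (by omega : 12 ≤ j)
  have hh0 := hh_posR E.δ i
  set c : ℕ → ℝ := fun q => 1 + 2 * (q * E.gh j q) with hc
  have hc1 : ∀ q, 1 ≤ c q := by
    intro q
    have := g3 q
    simp only [hc]
    have : 0 ≤ 2 * ((q : ℝ) * E.gh j q) := by positivity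
    linarith
  have hc0 : ∀ q, 0 ≤ c q := fun q => le_trans zero_le_one (hc1 q)
  set Q : Finset ℕ := (range (2 ^ i + 1)).filter (fun q : ℕ =>
    (q : ℝ) ≤ (2 : ℝ) ^ (1 / 20 * (i : ℝ)) ∧ E.gh j q ≠ 0) with hQ
  have hQp : ∀ q ∈ Q, q.Prime := by
    intro q hq
    rw [hQ, mem_filter] at hq
    exact (g5 q hq.2.2).1.1
  have hiR : (0 : ℝ) ≤ i := by positivity
  have e1 : ∀ n ∈ cell E.δ i k,
      cm (fun p => if (p : ℝ) ≤ (2 : ℝ) ^ (1 / 20 * (i : ℝ)) then 1 + 2 * (p * E.gh j p) else 1) n =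
        cm (fun p => if p ∈ Q then c p else 1) n := by
    intro n _
    apply cm_congr
    intro p _
    by_cases h1 : (p : ℝ) ≤ (2 : ℝ) ^ (1 / 20 * (i : ℝ))
    · by_cases h2 : E.gh j p = 0
      · have h3 : p ∉ Q := by
          rw [hQ, mem_filter]
          exact fun h => h.2.2 h2
        simp only [if_pos h1, if_neg h3, h2]
        ring
      · have h3 : p ∈ Q := by
          rw [hQ, mem_filter, mem_range]
          refine ⟨?_, h1, h2⟩
          have h6 : (p : ℝ) ≤ 2 ^ i := by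
            refine h1.trans ?_
            rw [← Real.rpow_natCast]
            apply Real.rpow_le_rpow_of_exponent_le (by norm_num)
            linarith
          have h7 : p ≤ 2 ^ i := by exact_mod_cast h6
          omega
        simp only [if_pos h1, if_pos h3, hc]
    · have h3 : p ∉ Q := by
        rw [hQ, mem_filter]
        exact fun h => h1 h.2.1
      simp only [if_neg h1, if_neg h3]
  rw [sum_congr rfl e1]
  set Z1 : ℝ := (2 : ℝ) ^ (1 / 4 * (i : ℝ)) with hZ1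
  set Z2 : ℝ := (2 : ℝ) ^ (3 / 10 * (i : ℝ)) with hZ2
  set K : ℝ := 2 * (2 : ℝ) ^ (9 * E.δ * i) with hK
  set N : ℕ := 2 ^ (i + 1) with hN
  set W1 := (Icc 1 N).filter (fun d : ℕ => d.primeFactors ⊆ Q ∧ (d : ℝ) ≤ Z1) with hW1
  set W2 := (Icc 1 N).filter (fun d : ℕ => d.primeFactors ⊆ Q ∧ Z1 < (d : ℝ) ∧ (d : ℝ) ≤ Z2) with hW2
  have hZ12 : Z1 ≤ Z2 := by
    apply Real.rpow_le_rpow_of_exponent_le (by norm_num)
    linarith
  have hpt : ∀ n ∈ cell E.δ i k, cm (fun p => if p ∈ Q then c p else 1) n ≤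
      ∑ d ∈ W1, cm c d * (if d ∣ n then 1 else 0) +
      K * ∑ d ∈ W2, (if d ∣ n then (1 : ℝ) else 0) := by
    intro n hn
    have hn2 := cell_sub hδ.le hk hn
    apply B_point c hc1 Q hQp (9 * E.δ) Z1 Z2 K ((2 : ℝ) ^ (1 / 20 * (i : ℝ))) (by linarith)
    · intro q hq
      rw [hQ, mem_filter] at hq
      exact (g7 q hq.2.2).2
    · intro q hq
      rw [hQ, mem_filter] at hq
      exact hq.2.1
    · exact Real.one_le_rpow (by norm_num) (by positivity)
    · rw [hZ1, hZ2, ← Real.rpow_add (by norm_num)]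
      apply le_of_eq
      congr 1; ring
    · omega
    · exact hn2.2
    · have hnR : (n : ℝ) ≤ (2 : ℝ) ^ ((i : ℝ) + 1) := by
        have : (n : ℝ) ≤ 2 ^ (i + 1) := by exact_mod_cast hn2.2
        rw [← Real.rpow_natCast] at this
        push_cast at this
        exact this
      calc (n : ℝ) ^ (9 * E.δ) ≤ ((2 : ℝ) ^ ((i : ℝ) + 1)) ^ (9 * E.δ) :=
            Real.rpow_le_rpow (by positivity) hnR (by linarith)
        _ = (2 : ℝ) ^ (((i : ℝ) + 1) * (9 * E.δ)) := by rw [← Real.rpow_mul (by norm_num)]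
        _ ≤ (2 : ℝ) ^ (1 + 9 * E.δ * i) := by
            apply Real.rpow_le_rpow_of_exponent_le (by norm_num)
            nlinarith
        _ = K := by rw [hK, Real.rpow_add (by norm_num), Real.rpow_one]
  refine (sum_le_sum hpt).trans ?_
  rw [sum_add_distrib, ← mul_sum, sum_comm (s := cell E.δ i k) (t := W1),
    sum_comm (s := cell E.δ i k) (t := W2)]
  -- counting
  have hZ2h : Z2 ≤ hh E.δ i := by
    have h1 := hJ2 i (by omega)
    rw [pow_zero, mul_one] at h1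
    have h2 := lt_hh (δ := E.δ) i
    have h3 : Z2 * (2 : ℝ) ^ ((1 / 5 - E.δ) * i) = (2 : ℝ) ^ ((1 / 2 - E.δ) * i) := by
      rw [hZ2, ← Real.rpow_add (by norm_num)]
      congr 1; ring
    have h4 : (0 : ℝ) < Z2 := by positivity
    nlinarith
  have hcount : ∀ d : ℕ, 0 < d → (d : ℝ) ≤ Z2 →
      ∑ n ∈ cell E.δ i k, (if d ∣ n then (1 : ℝ) else 0) ≤ 2 * hh E.δ i / (d : ℝ) := by
    intro d hpos hle
    have hposR : (0 : ℝ) < (d : ℝ) := by exact_mod_cast hpos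
    rw [sum_boole]
    have h1 := card_mult (2 ^ i + k * hh E.δ i) (hh E.δ i) d hpos
    have h2 : cell E.δ i k = Ioc (2 ^ i + k * hh E.δ i) (2 ^ i + k * hh E.δ i + hh E.δ i) := by
      unfold cell
      congr 1; ring
    rw [h2]
    refine h1.trans ?_
    have h3 : (1 : ℝ) ≤ hh E.δ i / (d : ℝ) := by
      rw [le_div_iff₀ hposR, one_mul]
      exact hle.trans hZ2h
    have h4 : 2 * (hh E.δ i : ℝ) / (d : ℝ) = hh E.δ i / (d : ℝ) + hh E.δ i / (d : ℝ) := by ring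
    rw [h4]
    linarith
  have hexp : ∀ x : ℝ, x ≤ 1 / 2 → Real.exp x ≤ 2 := by
    intro x hx
    calc Real.exp x ≤ Real.exp (Real.log 2) := by
          apply Real.exp_le_exp.2
          have := Real.log_two_gt_d9
          linarith
      _ = 2 := Real.exp_log (by norm_num)
  have g8Q := g8 Q
  have hqpos : ∀ q ∈ Q, (1 : ℝ) ≤ q := fun q hq => by exact_mod_cast (hQp q hq).one_lt.le
  have hQg : ∀ q ∈ Q, 1 ≤ (q : ℝ) * E.gh j q := fun q hq => by
    rw [hQ, mem_filter] at hq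
    exact (g5 q hq.2.2).2.2
  have h12j : (1 : ℝ) / j ≤ 1 / 12 := one_div_le_one_div_of_le (by norm_num) hjR
  -- first sum
  have hS1 : ∑ d ∈ W1, ∑ n ∈ cell E.δ i k, cm c d * (if d ∣ n then (1 : ℝ) else 0) ≤
      4 * hh E.δ i := by
    have h1 : ∀ d ∈ W1, ∑ n ∈ cell E.δ i k, cm c d * (if d ∣ n then (1 : ℝ) else 0) ≤
        2 * hh E.δ i * cm (fun q => c q * (1 / (q : ℝ))) d := by
      intro d hd
      rw [hW1, mem_filter, mem_Icc] at hd
      rw [← mul_sum]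
      have h2 := hcount d (by omega) (hd.2.2.trans hZ12)
      have h3 : 0 ≤ cm c d := cm_nonneg c hc0 d
      refine (mul_le_mul_of_nonneg_left h2 h3).trans (le_of_eq ?_)
      rw [cm_fun_mul, cm_inv d (by omega)]
      ring
    refine (sum_le_sum h1).trans ?_
    rw [← mul_sum]
    have h6 : ∀ q ∈ Q, c q * (1 / (q : ℝ)) ≤ 3 * ((q * E.gh j q) * (q : ℝ) ^ (-1 + E.τ / 4)) := by
      intro q hq
      have h8 := hqpos q hq
      have h9 : 1 / (q : ℝ) ≤ (q : ℝ) ^ (-1 + E.τ / 4) := by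
        rw [one_div, ← Real.rpow_neg_one]
        apply Real.rpow_le_rpow_of_exponent_le h8
        linarith
      have h10 := hQg q hq
      have h11 : c q ≤ 3 * ((q : ℝ) * E.gh j q) := by
        simp only [hc]
        linarith
      have h12 : (0 : ℝ) ≤ 1 / (q : ℝ) := by positivity
      calc c q * (1 / (q : ℝ)) ≤ (3 * ((q : ℝ) * E.gh j q)) * (q : ℝ) ^ (-1 + E.τ / 4) :=
            mul_le_mul h11 h9 h12 (by positivity)
        _ = _ := by ring
    have h7 : ∑ q ∈ Q, c q * (1 / (q : ℝ)) ≤ 1 / 4 := by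
      refine (sum_le_sum h6).trans ?_
      rw [← mul_sum]
      linarith
    have h5 := euler_le (fun q => c q * (1 / (q : ℝ))) Q hQp
      (fun q => mul_nonneg (hc0 q) (by positivity)) (fun q hq => by
        have h1 := single_le_sum (f := fun q : ℕ => c q * (1 / (q : ℝ)))
          (fun q _ => mul_nonneg (hc0 q) (by positivity)) hq
        try dsimp only at h1
        linarith) W1 (fun d hd => by
        rw [hW1, mem_filter, mem_Icc] at hd
        exact ⟨by omega, hd.2.1⟩)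
    have h8 := hexp (2 * ∑ q ∈ Q, c q * (1 / (q : ℝ))) (by linarith)
    have h9 := h5.trans h8
    nlinarith
  -- second sum
  have hS2 : K * ∑ d ∈ W2, ∑ n ∈ cell E.δ i k, (if d ∣ n then (1 : ℝ) else 0) ≤
      hh E.δ i := by
    have h1 : ∀ d ∈ W2, ∑ n ∈ cell E.δ i k, (if d ∣ n then (1 : ℝ) else 0) ≤
        2 * hh E.δ i * (2 : ℝ) ^ (-(E.τ / 16) * (i : ℝ)) *
          cm (fun q => (q : ℝ) ^ (-1 + E.τ / 4)) d := by
      intro s hs
      rw [hW2, mem_filter, mem_Icc] at hs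
      obtain ⟨hs1, -, hs2, hs3⟩ := hs
      refine (hcount s (by omega) hs3).trans ?_
      rw [cm_rpow s (by omega)]
      set d : ℝ := (s : ℝ) with hdd
      have hZpos : (0 : ℝ) < Z1 := by positivity
      have hdpos : 0 < d := hZpos.trans hs2
      have h2 : d ^ (-1 + E.τ / 4) = d⁻¹ * d ^ (E.τ / 4) := by
        rw [Real.rpow_add hdpos, Real.rpow_neg_one]
      have h3 : (2 : ℝ) ^ (E.τ / 16 * (i : ℝ)) ≤ d ^ (E.τ / 4) := by
        have h4 : (2 : ℝ) ^ (E.τ / 16 * (i : ℝ)) = Z1 ^ (E.τ / 4) := by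
          rw [hZ1, ← Real.rpow_mul (by norm_num)]
          congr 1; ring
        rw [h4]
        exact Real.rpow_le_rpow hZpos.le hs2.le (by linarith)
      have h5 : (2 : ℝ) ^ (-(E.τ / 16) * (i : ℝ)) * (2 : ℝ) ^ (E.τ / 16 * (i : ℝ)) = 1 := by
        rw [← Real.rpow_add (by norm_num)]
        rw [show -(E.τ / 16) * (i : ℝ) + E.τ / 16 * (i : ℝ) = 0 by ring, Real.rpow_zero]
      rw [h2]
      have h6 : 2 * (hh E.δ i : ℝ) / d = 2 * hh E.δ i * d⁻¹ *
          ((2 : ℝ) ^ (-(E.τ / 16) * (i : ℝ)) * (2 : ℝ) ^ (E.τ / 16 * (i : ℝ))) := by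
        rw [h5]; ring
      rw [h6]
      have h7 : 2 * (hh E.δ i : ℝ) * d⁻¹ *
          ((2 : ℝ) ^ (-(E.τ / 16) * (i : ℝ)) * (2 : ℝ) ^ (E.τ / 16 * (i : ℝ))) ≤
          2 * (hh E.δ i : ℝ) * d⁻¹ *
          ((2 : ℝ) ^ (-(E.τ / 16) * (i : ℝ)) * d ^ (E.τ / 4)) := by
        apply mul_le_mul_of_nonneg_left _ (by positivity)
        exact mul_le_mul_of_nonneg_left h3 (by positivity)
      refine h7.trans (le_of_eq ?_)
      ring
    have h2 : ∑ d ∈ W2, ∑ n ∈ cell E.δ i k, (if d ∣ n then (1 : ℝ) else 0) ≤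
        2 * hh E.δ i * (2 : ℝ) ^ (-(E.τ / 16) * (i : ℝ)) * 2 := by
      refine (sum_le_sum h1).trans ?_
      rw [← mul_sum]
      apply mul_le_mul_of_nonneg_left _ (by positivity)
      have h6 : ∑ q ∈ Q, (q : ℝ) ^ (-1 + E.τ / 4) ≤ 1 / j := by
        refine le_trans (sum_le_sum ?_) g8Q
        intro q hq
        have h7 := hQg q hq
        have h8 : 0 ≤ (q : ℝ) ^ (-1 + E.τ / 4) := by positivity
        nlinarith
      have h5 := euler_le (fun q => (q : ℝ) ^ (-1 + E.τ / 4)) Q hQp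
        (fun q => by positivity) (fun q hq => by
          have h1 := single_le_sum (f := fun q : ℕ => (q : ℝ) ^ (-1 + E.τ / 4))
            (fun q _ => by positivity) hq
          try dsimp only at h1
          linarith) W2 (fun d hd => by
          rw [hW2, mem_filter, mem_Icc] at hd
          exact ⟨by omega, hd.2.1⟩)
      exact h5.trans (hexp _ (by linarith))
    have hbig := hJ1 i (by omega)
    rw [pow_zero, mul_one] at hbig
    have h3 : (2 : ℝ) ^ (9 * E.δ * i) * (2 : ℝ) ^ ((E.τ / 16 - 9 * E.δ) * i) *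
        (2 : ℝ) ^ (-(E.τ / 16) * (i : ℝ)) = 1 := by
      rw [← Real.rpow_add (by norm_num), ← Real.rpow_add (by norm_num)]
      rw [show 9 * E.δ * i + (E.τ / 16 - 9 * E.δ) * i + -(E.τ / 16) * (i : ℝ) = 0 by ring,
        Real.rpow_zero]
    have hKpos : 0 ≤ K := by positivity
    refine (mul_le_mul_of_nonneg_left h2 hKpos).trans ?_
    rw [hK]
    have h4 : 2 * (2 : ℝ) ^ (9 * E.δ * i) * (2 * hh E.δ i * (2 : ℝ) ^ (-(E.τ / 16) * (i : ℝ)) * 2)
        = hh E.δ i * ((2 : ℝ) ^ (9 * E.δ * i) * 8 * (2 : ℝ) ^ (-(E.τ / 16) * (i : ℝ))) := by ring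
    rw [h4]
    have h5 : (2 : ℝ) ^ (9 * E.δ * i) * 8 * (2 : ℝ) ^ (-(E.τ / 16) * (i : ℝ)) ≤ 1 := by
      rw [← h3]
      apply mul_le_mul_of_nonneg_right _ (by positivity)
      exact mul_le_mul_of_nonneg_left hbig (by positivity)
    nlinarith
  linarith

/-- task SP -/
theorem sp : ∀ E : Env, E.GBounds → E.SPartc := by
  intro E hG
  obtain ⟨JA, -, hA⟩ := A_bound E hG
  obtain ⟨JB, -, hB⟩ := B_bound E hG
  obtain ⟨J0, hJ0, hJ⟩ := hG
  refine ⟨JA + JB + J0 + 3, fun j hj i hij k hk => ?_⟩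
  have hA' := hA j (by omega) i hij
  have hB' := hB j (by omega) i hij k hk
  have hδ := E.hδ
  have hiR : (3 : ℝ) ≤ i := by exact_mod_cast (by omega : 3 ≤ i)
  have hgu := gu_nonneg E j
  have hgh := gh_nonneg E j
  set a : ℝ := (2 : ℝ) ^ (E.δ / 2 * i) / (i : ℝ) ^ 50 with ha
  have hapos : 0 < a := by positivity
  set fA : ℕ → ℝ := fun p => if (p : ℝ) ≤ (2 : ℝ) ^ (3 / 5 * (i : ℝ)) then
    1 + 2 * (p * E.gu j p) else 1 with hfA
  set fB : ℕ → ℝ := fun p => if (p : ℝ) ≤ (2 : ℝ) ^ (1 / 20 * (i : ℝ)) then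
    1 + 2 * (p * E.gh j p) else 1 with hfB
  have hfA0 : ∀ p, 0 ≤ fA p := fun p => by
    have := hgu p
    simp only [hfA]
    split_ifs <;> positivity
  have hfB0 : ∀ p, 0 ≤ fB p := fun p => by
    have := hgh p
    simp only [hfB]
    split_ifs <;> positivity
  have h1 : ∀ n ∈ cell E.δ i k,
      (1 / (n : ℝ)) * cm (fun p => 1 + 2 * (p * E.gs j i p)) n ≤ (1 / 2 ^ i * a) * cm fB n := by
    intro n hn
    have hn2 := cell_sub hδ.le hk hn
    have hnR : (2 : ℝ) ^ i ≤ n := by exact_mod_cast hn2.1.le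
    have h2 : cm (fun p => 1 + 2 * (p * E.gs j i p)) n ≤ cm fA n * cm fB n := by
      rw [← cm_fun_mul]
      apply cm_le
      · intro p _
        unfold Env.gs
        have h3 := hgu p
        have h4 := hgh p
        split_ifs <;> positivity
      · intro p _
        simp only [hfA, hfB]
        unfold Env.gs
        have h3 : 0 ≤ (p : ℝ) * E.gu j p := mul_nonneg (Nat.cast_nonneg p) (hgu p)
        have h4 : 0 ≤ (p : ℝ) * E.gh j p := mul_nonneg (Nat.cast_nonneg p) (hgh p)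
        split_ifs
        · nlinarith [mul_nonneg h3 h4]
        · nlinarith
        · nlinarith
        · nlinarith
    have h5 := hA' n (by omega) hn2.2
    have hB0 : 0 ≤ cm fB n := cm_nonneg fB hfB0 n
    have h6 : cm (fun p => 1 + 2 * (p * E.gs j i p)) n ≤ a * cm fB n :=
      h2.trans (mul_le_mul_of_nonneg_right h5 hB0)
    have h7 : 1 / (n : ℝ) ≤ 1 / 2 ^ i := one_div_le_one_div_of_le (by positivity) hnR
    calc (1 / (n : ℝ)) * cm (fun p => 1 + 2 * (p * E.gs j i p)) n ≤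
        (1 / (n : ℝ)) * (a * cm fB n) := mul_le_mul_of_nonneg_left h6 (by positivity)
      _ ≤ (1 / 2 ^ i) * (a * cm fB n) :=
          mul_le_mul_of_nonneg_right h7 (mul_nonneg hapos.le hB0)
      _ = _ := by ring
  refine (sum_le_sum h1).trans ?_
  rw [← mul_sum]
  have h3 : (1 / 2 ^ i * a) * ∑ n ∈ cell E.δ i k, cm fB n ≤ (1 / 2 ^ i * a) * (5 * hh E.δ i) :=
    mul_le_mul_of_nonneg_left hB' (by positivity)
  refine h3.trans ?_
  have h4 := hh_le (δ_half E) i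
  have h5 : (1 / 2 ^ i * a) * (5 * hh E.δ i) ≤
      (1 / 2 ^ i * a) * (5 * (2 : ℝ) ^ ((1 / 2 - E.δ) * i)) := by
    apply mul_le_mul_of_nonneg_left _ (by positivity)
    linarith
  refine h5.trans ?_
  have h6 : (1 / 2 ^ i * a) * (5 * (2 : ℝ) ^ ((1 / 2 - E.δ) * i)) = 5 / (i : ℝ) ^ 10 * E.w i := by
    unfold Env.w
    have e1 : (2 : ℝ) ^ (-(1 / 2 + E.δ / 2) * (i : ℝ)) * (2 : ℝ) ^ i =
      (2 : ℝ) ^ ((1 / 2 - E.δ) * i) * (2 : ℝ) ^ (E.δ / 2 * i) := exp_id1 E i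
    rw [ha]
    have e2 : (1 / 2 ^ i * ((2 : ℝ) ^ (E.δ / 2 * i) / (i : ℝ) ^ 50)) *
        (5 * (2 : ℝ) ^ ((1 / 2 - E.δ) * i)) = 5 / (i : ℝ) ^ 50 *
        (((2 : ℝ) ^ ((1 / 2 - E.δ) * i) * (2 : ℝ) ^ (E.δ / 2 * i)) / 2 ^ i) := by ring
    rw [e2, ← e1]
    field_simp
  rw [h6]
  have h7 : 5 / (i : ℝ) ^ 10 ≤ 1 / 16 := by
    rw [div_le_div_iff₀ (by positivity) (by norm_num)]
    have : (3 : ℝ) ^ 10 ≤ (i : ℝ) ^ 10 := pow_le_pow_left₀ (by norm_num) hiR 10
    linarith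
  have h8 := w_nonneg E i
  have h9 := mul_le_mul_of_nonneg_right h7 h8
  linarith

end Pool.Agent.V11197.CM
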