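import Pool.Agent.V11197.CM.Defs
import Pool.Agent.W596.MO.UP

/-!
# Contribution of the large control primes
-/

set_option autoImplicit false

namespace Pool.Agent.V11197.CM

open Finset Filter Topology
open scoped Classical
open Pool.Agent.W76.MO Pool.Agent.W76.MO.Env
open Pool.Agent.W596.MO (PS St_le sum_one_le nc_mul)

theorem upart : ∀ E : Env, E.GBounds → E.ESumc → E.UPartc := by
  intro E hGB hES
  have hcU := E.hcU
  have hCU := E.hCU
  set C₀ : ℝ := 2 ^ 44 * E.CU / E.cU with hC₀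
  have hC₀pos : 0 < C₀ := by positivity
  obtain ⟨R₀, hR₀⟩ := hES (1 / (16 * C₀)) (by positivity)
  obtain ⟨J₁, hJ₁⟩ := St_le E hGB
  obtain ⟨J₀, hJ₀1, hJ₀⟩ := hGB
  refine ⟨R₀, fun R hR => ?_⟩
  obtain ⟨J₂, hJ₂⟩ := hR₀ R hR
  refine ⟨J₀ + J₁ + J₂, fun j hj i hji k hk => ?_⟩
  obtain ⟨-, hgu, hgh, -⟩ := hJ₀ j (by omega)
  have hES2 := hJ₂ j (by omega)
  have hw0 : 0 ≤ E.w i := by unfold Env.w; positivity
  have hE2 : ∀ t : ℕ, 0 ≤ E.E2c j t := fun t => E.E2c_nonneg j hgu hgh t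
  have hE2' : ∀ t : ℕ, 0 ≤ E.E2c j t / (t : ℝ) := fun t => div_nonneg (hE2 t) (Nat.cast_nonneg t)
  set T : Finset ℕ := (Icc 2 (2 ^ (i + 1))).filter (fun t => Rough R t) with hT
  -- the double sum
  have hmain : ∑ n ∈ E.csc R i k,
      ∑ p ∈ n.primeFactors.filter (fun p : ℕ => (2 : ℝ) ^ (3 / 5 * (i : ℝ)) < p),
        E.gu j p * (E.E2c j (n / p) / ((n / p : ℕ) : ℝ)) ≤
      ∑ t ∈ insert 1 T, ∑ p ∈ PS E i k t, E.gu j p * (E.E2c j t / (t : ℝ)) := by
    rw [Finset.sum_sigma', Finset.sum_sigma']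
    set S1 := (E.csc R i k).sigma (fun n : ℕ => n.primeFactors.filter
      (fun p : ℕ => (2 : ℝ) ^ (3 / 5 * (i : ℝ)) < p)) with hS1
    have hinj : Set.InjOn (fun x : (_ : ℕ) × ℕ => (⟨x.1 / x.2, x.2⟩ : (_ : ℕ) × ℕ)) S1 := by
      rintro ⟨n, p⟩ hx ⟨n', p'⟩ hy hxy
      rw [Finset.mem_coe, hS1, mem_sigma, mem_filter] at hx hy
      simp only [Sigma.mk.injEq, heq_eq_eq] at hxy
      obtain ⟨h1, h2⟩ := hxy
      subst h2
      have d1 := Nat.dvd_of_mem_primeFactors hx.2.1
      have d2 := Nat.dvd_of_mem_primeFactors hy.2.1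
      have : n = n' := by
        have := congrArg (fun z => z * p) h1
        rwa [Nat.div_mul_cancel d1, Nat.div_mul_cancel d2] at this
      rw [this]
    have himg : ∑ x ∈ S1, E.gu j x.2 * (E.E2c j (x.1 / x.2) / ((x.1 / x.2 : ℕ) : ℝ)) =
        ∑ y ∈ S1.image (fun x : (_ : ℕ) × ℕ => (⟨x.1 / x.2, x.2⟩ : (_ : ℕ) × ℕ)),
          E.gu j y.2 * (E.E2c j y.1 / (y.1 : ℝ)) := by
      rw [Finset.sum_image hinj]
    rw [himg]
    apply Finset.sum_le_sum_of_subset_of_nonneg
    · intro y hy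
      rw [mem_image] at hy
      obtain ⟨⟨n, p⟩, hx, rfl⟩ := hy
      rw [hS1, mem_sigma, mem_filter] at hx
      obtain ⟨hn, hp, hp2⟩ := hx
      simp only at hn hp hp2 ⊢
      unfold Env.csc at hn
      rw [mem_filter] at hn
      obtain ⟨hnc, hro⟩ := hn
      have hpp := Nat.prime_of_mem_primeFactors hp
      have hpd := Nat.dvd_of_mem_primeFactors hp
      have hmul : n / p * p = n := Nat.div_mul_cancel hpd
      have hnc' := hnc
      unfold cell at hnc'
      rw [mem_Ioc] at hnc'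
      have h1 : nc E.δ i * hh E.δ i = 2 ^ i := nc_mul E.hδ i
      have h2 : (k + 1) * hh E.δ i ≤ nc E.δ i * hh E.δ i := Nat.mul_le_mul_right _ hk
      have h4 : 2 ^ (i + 1) = 2 * 2 ^ i := by ring
      have hn2 : n ≤ 2 ^ (i + 1) := by omega
      have hnpos : 0 < n := by omega
      have htpos : 0 < n / p := by
        rcases Nat.eq_zero_or_pos (n / p) with h0 | h0
        · rw [h0] at hmul; omega
        · exact h0
      have htd : n / p ∣ n := Dvd.intro _ hmul
      rw [mem_sigma]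
      refine ⟨?_, ?_⟩
      · simp only
        rw [mem_insert]
        by_cases h1' : n / p = 1
        · left; exact h1'
        · right
          rw [hT, mem_filter, mem_Icc]
          refine ⟨⟨by omega, le_trans (Nat.div_le_self _ _) hn2⟩, ?_⟩
          intro r hr hrd
          exact hro r hr (dvd_trans hrd htd)
      · simp only
        unfold PS
        rw [mem_filter, hmul, mem_range]
        exact ⟨by have := Nat.le_of_dvd hnpos hpd; omega, hp2, hnc⟩
    · rintro ⟨t, p⟩ _ _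
      exact mul_nonneg (hgu p) (hE2' t)
  have hstep : ∀ t : ℕ, ∑ p ∈ PS E i k t, E.gu j p * (E.E2c j t / (t : ℝ)) =
      (E.E2c j t / (t : ℝ)) * ∑ p ∈ PS E i k t, E.gu j p := by
    intro t
    rw [Finset.mul_sum]
    apply Finset.sum_congr rfl
    intro p _
    ring
  have h1T : (1 : ℕ) ∉ T := by
    rw [hT, mem_filter, mem_Icc]; omega
  rw [Finset.sum_insert h1T] at hmain
  simp only [hstep] at hmain
  have hE21 : E.E2c j 1 / ((1 : ℕ) : ℝ) = 1 := by
    unfold Env.E2c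
    rw [cm_one]
    simp
  rw [hE21, one_mul] at hmain
  have hone := sum_one_le E j i k hji hk
  have hrest : ∑ t ∈ T, (E.E2c j t / (t : ℝ)) * ∑ p ∈ PS E i k t, E.gu j p ≤ E.w i / 16 := by
    calc ∑ t ∈ T, (E.E2c j t / (t : ℝ)) * ∑ p ∈ PS E i k t, E.gu j p
        ≤ ∑ t ∈ T, (E.E2c j t / (t : ℝ)) * (C₀ * E.w i * (t : ℝ) ^ (-E.δ / 2)) := by
          apply Finset.sum_le_sum
          intro t ht
          rw [hT, mem_filter, mem_Icc] at ht
          apply mul_le_mul_of_nonneg_left _ (hE2' t)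
          exact hJ₁ j (by omega) i hji k hk t ht.1.1
      _ = C₀ * E.w i * ∑ t ∈ T, E.E2c j t / t * (t : ℝ) ^ (-E.δ / 2) := by
          rw [Finset.mul_sum]
          apply Finset.sum_congr rfl
          intro t _
          ring
      _ ≤ C₀ * E.w i * (1 / (16 * C₀)) := by
          apply mul_le_mul_of_nonneg_left (hES2 _) (by positivity)
      _ = E.w i / 16 := by
          field_simp
  linarith

end Pool.Agent.V11197.CM
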