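import Pool.Agent.V11197.CM.Fin
import Pool.Agent.V11197.CM.ES
import Pool.Agent.V11197.CM.UP
import Pool.Agent.V11197.CM.H1
import Pool.Agent.V11197.CM.HA
import Pool.Agent.V11197.CM.HB
import Pool.Agent.V11197.CM.HX
import Pool.Agent.V11197.CM.HSq
import Pool.Agent.V11197.CM.SPB
import Pool.Agent.W76.MO.Final
import Pool.Agent.V11197.ZT.US

/-!
# The main theorem
-/

set_option autoImplicit false

namespace Pool.Agent.W76.MO

open Finset
open scoped Classical
open Pool.Agent.V11197.CM (Conclc)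

theorem env_conclc (E : Env) (hHC : E.HCount) (hGB : E.GBounds) (hU : E.UPartc) (hH : E.HPartc)
    (hQ : E.HSqc) (hS : E.SPartc) : Conclc := by
  obtain ⟨R, j, z, h1, h2, h3, h4, h5, h6⟩ := E.systemc hGB hHC (E.keyc hGB hU hH hQ hS)
  exact (Env.Solc.mk h1 h2 h3 h4 h5 h6 : Env.Solc E R j z).concl

/-- all the pieces together -/
theorem mainc_of (BTRh : BTR) (hCL : CellLow) (HOh : Hosts) : ∃ ε : ℝ, 0 < ε ∧ ε < 1 / 2 ∧
    ((∀ s : ℂ, 1 / 2 + ε < s.re → riemannZeta s ≠ 0) → Conclc) := by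
  obtain ⟨τ₀, γ₀, c, δ₀, hτ₀, hγ₀, hc, hδ₀, hhost⟩ := HOh
  set τ : ℝ := min (min τ₀ γ₀) (1 / 100) with hτd
  have hτ : 0 < τ := lt_min (lt_min hτ₀ hγ₀) (by norm_num)
  have hτ1 : τ ≤ 1 / 100 := min_le_right _ _
  set δ : ℝ := min δ₀ (τ / 1000) with hδd
  have hδ : 0 < δ := lt_min hδ₀ (by positivity)
  have hδ1 : δ ≤ τ / 1000 := min_le_right _ _
  obtain ⟨i₀, hi₀, hhost⟩ := hhost δ hδ (min_le_left _ _)
  refine ⟨δ / 16, by positivity, by linarith, fun hZ => ?_⟩
  obtain ⟨c', hc', hF⟩ := Pool.Agent.V11197.ZT.fbt hCL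
  obtain ⟨isU, CU, cU, i₁, hCU, hcU, hi₁, hup, huu, hub⟩ :=
    Pool.Agent.V11197.ZT.ust BTRh τ δ hτ hτ1 hδ hδ1 ⟨c', hc', hF δ hδ (by linarith) hZ⟩
  obtain ⟨CB, hCB, i₂, hi₂, hbtr⟩ := BTRh τ (τ / 4) hτ (by positivity)
  let E : Env :=
    { τ := τ, δ := δ, CU := CU, cU := cU, cH := c, CB := max CB 1, isU := isU
      i₁ := i₀ + i₁ + i₂
      hτ := hτ, hτ' := hτ1, hδ := hδ, hδ' := hδ1, hCU := hCU, hcU := hcU, hcH := hc
      hCB := le_max_right _ _
      hi₁ := by omega
      u_prime := hup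
      u_up := fun i hi => huu i (by omega)
      u_bad := fun i hi => hub i (by omega)
      host := by
        intro i hi k hk
        have hmul := nc_mul δ hδ i
        have hlt : (k + 1) * hh δ i ≤ nc δ i * hh δ i := Nat.mul_le_mul_right _ hk
        have h1 := hhost i (by omega) (2 ^ i + k * hh δ i) (by omega) (by
          rw [pow_succ]
          have : k * hh δ i ≤ (k + 1) * hh δ i := Nat.mul_le_mul_right _ (Nat.le_succ k)
          omega)
        refine h1.trans ?_
        have hi0 : (0 : ℝ) ≤ i := Nat.cast_nonneg i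
        have hsub : (Ioc (2 ^ i + k * hh δ i) (2 ^ i + k * hh δ i + hh δ i)).filter
            (HostNum τ₀ γ₀ i) ⊆ (cell δ i k).filter (HostNum τ τ i) := by
          intro n hn
          rw [mem_filter, mem_Ioc] at hn
          rw [mem_filter]
          refine ⟨?_, ?_⟩
          · unfold cell
            rw [mem_Ioc]
            have : (k + 1) * hh δ i = k * hh δ i + hh δ i := by ring
            omega
          · obtain ⟨m, q, h1, h2, h3, h4, h5, h6⟩ := hn.2
            refine ⟨m, q, h1, h2, ?_, h4, h5, ?_⟩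
            · refine le_trans (Real.rpow_le_rpow_of_exponent_le (by norm_num) ?_) h3
              have : τ ≤ τ₀ := (min_le_left _ _).trans (min_le_left _ _)
              apply mul_le_mul_of_nonneg_right _ hi0
              linarith
            · intro p hp hpm
              refine le_trans (Real.rpow_le_rpow_of_exponent_le (by norm_num) ?_) (h6 p hp hpm)
              have : τ ≤ γ₀ := (min_le_left _ _).trans (min_le_right _ _)
              exact mul_le_mul_of_nonneg_right this hi0
        exact_mod_cast Finset.card_le_card hsub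
      btr := by
        intro i hi a L hL
        refine (hbtr i (by omega) a L hL).trans ?_
        have hi0 : (0 : ℝ) < i := by
          have : 0 < i := by omega
          exact_mod_cast this
        gcongr
        exact le_max_left _ _ }
  have hHC : E.HCount := Pool.Agent.W501.MO.hc E
  have hGB : E.GBounds := Pool.Agent.W683.MO.gb E hHC
  have hES := Pool.Agent.V11197.CM.es E hGB
  have hUP := Pool.Agent.V11197.CM.upart E hGB hES
  have hSP := Pool.Agent.V11197.CM.sp E hGB
  have hPB := Pool.Agent.W1.MO.pb τ δ hτ hτ1 hδ hδ1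
  have hHP := Pool.Agent.V11197.CM.hx E hGB (Pool.Agent.V11197.CM.h1 E hGB)
    (Pool.Agent.V11197.CM.ha E hHC hGB hES) (Pool.Agent.V11197.CM.hb E hHC hGB hPB)
  exact env_conclc E hHC hGB hUP hHP (Pool.Agent.V11197.CM.hsq E hGB) hSP

/-- For some absolute `ε > 0`: if `ζ` has no zeros with real part `> 1/2 + ε`, then there is a
CMO function with `S_f(N) = O(N^(-1/2-c))`. -/
theorem mainc : ∃ ε : ℝ, 0 < ε ∧ ε < 1 / 2 ∧
    ((∀ s : ℂ, 1 / 2 + ε < s.re → riemannZeta s ≠ 0) → Conclc) :=
  mainc_of Pool.Agent.W761.MO.btr (Pool.Agent.W815.CL.cellLow Pool.Agent.W761.MO.btr)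
    (Pool.Agent.W544.MO.main Pool.Agent.W761.MO.btr midRange)

end Pool.Agent.W76.MO
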