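import Pool.Agent.V11197.CM.Defs
import Pool.Agent.W683.MO.SP

/-!
# Small control primes, part 1
-/

set_option autoImplicit false

namespace Pool.Agent.V11197.CM

open Finset Filter Topology
open scoped Classical
open Pool.Agent.W76.MO
open Pool.Agent.W683.MO (large prod_large gu_nonneg sc_spec)

/-- (A) -/
theorem A_bound (E : Env) (hG : E.GBounds) : ∃ J : ℕ, 1 ≤ J ∧ ∀ j : ℕ, J ≤ j → ∀ i : ℕ, j ≤ i →
    ∀ n : ℕ, 1 ≤ n → n ≤ 2 ^ (i + 1) →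
      cm (fun p => if (p : ℝ) ≤ (2 : ℝ) ^ (3 / 5 * (i : ℝ)) then 1 + 2 * (p * E.gu j p) else 1) n ≤
        (2 : ℝ) ^ (E.δ / 2 * i) / (i : ℝ) ^ 50 := by
  have hδ := E.hδ
  have hδ1 : E.δ ≤ 1 := by have := E.hδ'; have := E.hτ'; linarith
  obtain ⟨J0, hJ0, hJ⟩ := hG
  obtain ⟨J1, hJ1⟩ := large (E.δ / 50) 1 50 (by linarith)
  refine ⟨J0 + J1 + 1003, by omega, fun j hj i hij n hn1 hn => ?_⟩
  obtain ⟨-, -, -, g4, -, g6, -, -, -⟩ := hJ j (by omega)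
  set S : Finset ℕ := n.primeFactors.filter
    (fun p : ℕ => (p : ℝ) ≤ (2 : ℝ) ^ (3 / 5 * (i : ℝ)) ∧ E.U j p) with hS
  set F : Finset (Σ _ : ℕ, ℕ) := S.sigma (fun p => range (n.factorization p)) with hF
  have e1 : cm (fun p => if (p : ℝ) ≤ (2 : ℝ) ^ (3 / 5 * (i : ℝ)) then 1 + 2 * (p * E.gu j p)
      else 1) n = ∏ p ∈ F, (1 + 2 * (p.1 * E.gu j p.1)) := by
    rw [hF, prod_sigma]
    unfold cm
    have h1 : ∀ p ∈ S, ∏ s ∈ range (n.factorization p), (1 + 2 * (((⟨p, s⟩ : Σ _ : ℕ, ℕ).1 : ℝ) *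
        E.gu j (⟨p, s⟩ : Σ _ : ℕ, ℕ).1)) = (1 + 2 * ((p : ℝ) * E.gu j p)) ^ n.factorization p := by
      intro p _
      simp only [prod_const, card_range]
    rw [prod_congr rfl h1, hS, prod_filter]
    refine prod_congr rfl fun p _ => ?_
    beta_reduce
    by_cases h2 : (p : ℝ) ≤ (2 : ℝ) ^ (3 / 5 * (i : ℝ))
    · by_cases h3 : E.U j p
      · rw [if_pos h2, if_pos ⟨h2, h3⟩]
      · have h4 : E.gu j p = 0 := by
          by_contra h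
          exact h3 (g4 p h)
        rw [if_pos h2, if_neg (fun h => h3 h.2), h4, mul_zero, mul_zero, add_zero, one_pow]
    · rw [if_neg h2, if_neg (fun h => h2 h.1), one_pow]
  rw [e1]
  have hFS : ∀ p ∈ F, p.1 ∈ S := fun p hp => (mem_sigma.1 hp).1
  have hFU : ∀ p ∈ F, E.U j p.1 := fun p hp => (mem_filter.1 (hFS p hp)).2.2
  have hFp : ∀ p ∈ F, (p.1 : ℝ) ≤ (2 : ℝ) ^ (3 / 5 * (i : ℝ)) :=
    fun p hp => (mem_filter.1 (hFS p hp)).2.1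
  have hsc : ∀ p ∈ F, 2 ^ Env.sc p.1 < p.1 := by
    intro p hp
    exact (sc_spec (E.u_prime p.1 (hFU p hp).1).two_le).1
  have ha2 : ∀ p ∈ F, 2 ≤ Env.sc p.1 := by
    intro p hp
    have := (g6 p.1 (hFU p hp)).1
    omega
  have ha6 : ∀ p ∈ F, 10 * Env.sc p.1 ≤ 6 * i := by
    intro p hp
    have h1 : (2 : ℝ) ^ ((Env.sc p.1 : ℕ) : ℝ) < (2 : ℝ) ^ (3 / 5 * (i : ℝ)) := by
      rw [Real.rpow_natCast]
      refine lt_of_lt_of_le ?_ (hFp p hp)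
      exact_mod_cast hsc p hp
    have h2 := (Real.rpow_lt_rpow_left_iff (by norm_num)).1 h1
    have h3 : (10 * Env.sc p.1 : ℝ) ≤ 6 * i := by linarith
    exact_mod_cast h3
  have hSum : ∑ p ∈ F, Env.sc p.1 ≤ i + 1 := by
    have h1 : ∏ p ∈ F, 2 ^ Env.sc p.1 ≤ ∏ p ∈ F, p.1 :=
      prod_le_prod' (fun p hp => (hsc p hp).le)
    have h2 : ∏ p ∈ F, p.1 ∣ n := by
      rw [hF, prod_sigma]
      have h3 : ∀ p ∈ S, ∏ s ∈ range (n.factorization p), (⟨p, s⟩ : Σ _ : ℕ, ℕ).1 =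
          p ^ n.factorization p := by
        intro p _
        simp only [prod_const, card_range]
      rw [prod_congr rfl h3]
      have h4 : ∏ p ∈ n.primeFactors, p ^ n.factorization p = n := by
        have h5 := Nat.prod_factorization_pow_eq_self (show n ≠ 0 by omega)
        unfold Finsupp.prod at h5
        rw [Nat.support_factorization] at h5
        exact h5
      conv_rhs => rw [← h4]
      exact prod_dvd_prod_of_subset _ _ _ (filter_subset _ _)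
    have h3 := Nat.le_of_dvd (by omega) h2
    rw [prod_pow_eq_pow_sum] at h1
    have h4 : 2 ^ (∑ p ∈ F, Env.sc p.1) ≤ 2 ^ (i + 1) := by omega
    exact (Nat.pow_le_pow_iff_right (by norm_num)).1 h4
  have hprod : ∏ p ∈ F, (1 + 2 * ((p.1 : ℝ) * E.gu j p.1)) ≤
      (2 : ℝ) ^ (E.δ / 2 * ((∑ p ∈ F, Env.sc p.1 : ℕ) : ℝ)) /
        ((∏ p ∈ F, Env.sc p.1 : ℕ) : ℝ) ^ 35 := by
    have h1 : ∏ p ∈ F, (1 + 2 * ((p.1 : ℝ) * E.gu j p.1)) ≤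
        ∏ p ∈ F, ((2 : ℝ) ^ (E.δ / 2 * Env.sc p.1) / (Env.sc p.1 : ℝ) ^ 35) := by
      apply Finset.prod_le_prod
      · intro p _
        have := gu_nonneg E j p.1
        positivity
      · intro p hp
        exact (g6 p.1 (hFU p hp)).2
    refine h1.trans (le_of_eq ?_)
    rw [prod_div_distrib]
    congr 1
    · rw [← Real.rpow_sum_of_pos (by norm_num)]
      congr 1
      push_cast
      rw [mul_sum]
    · push_cast
      rw [prod_pow]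
  refine hprod.trans ?_
  have hiR : (1000 : ℝ) ≤ i := by exact_mod_cast (by omega : 1000 ≤ i)
  have hPpos : 1 ≤ ∏ p ∈ F, Env.sc p.1 := by
    apply Nat.one_le_iff_ne_zero.2
    rw [prod_ne_zero_iff]
    intro p hp
    have := ha2 p hp
    omega
  have hPR : (1 : ℝ) ≤ ((∏ p ∈ F, Env.sc p.1 : ℕ) : ℝ) := by exact_mod_cast hPpos
  by_cases hc : 25 * ∑ p ∈ F, Env.sc p.1 ≤ 24 * i
  · have hbig := hJ1 i (by omega)
    rw [one_mul] at hbig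
    have hc' : (25 : ℝ) * ((∑ p ∈ F, Env.sc p.1 : ℕ) : ℝ) ≤ 24 * i := by exact_mod_cast hc
    rw [div_le_div_iff₀ (by positivity) (by positivity)]
    have h1 : (2 : ℝ) ^ (E.δ / 2 * ((∑ p ∈ F, Env.sc p.1 : ℕ) : ℝ)) * (i : ℝ) ^ 50 ≤
        (2 : ℝ) ^ (E.δ / 2 * ((∑ p ∈ F, Env.sc p.1 : ℕ) : ℝ)) * (2 : ℝ) ^ (E.δ / 50 * i) :=
      mul_le_mul_of_nonneg_left hbig (by positivity)
    have h2 : (2 : ℝ) ^ (E.δ / 2 * ((∑ p ∈ F, Env.sc p.1 : ℕ) : ℝ)) * (2 : ℝ) ^ (E.δ / 50 * i) ≤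
        (2 : ℝ) ^ (E.δ / 2 * i) := by
      rw [← Real.rpow_add (by norm_num)]
      apply Real.rpow_le_rpow_of_exponent_le (by norm_num)
      nlinarith
    have h3 : (1 : ℝ) ≤ ((∏ p ∈ F, Env.sc p.1 : ℕ) : ℝ) ^ 35 := one_le_pow₀ hPR
    have h4 : (0 : ℝ) < (2 : ℝ) ^ (E.δ / 2 * i) := by positivity
    nlinarith
  · push Not at hc
    have h1 := prod_large F (fun p => Env.sc p.1) i (by omega) ha2 ha6 hc
    have h1R : (i : ℝ) ^ 2 ≤ 10 * ((∏ p ∈ F, Env.sc p.1 : ℕ) : ℝ) := by exact_mod_cast h1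
    have h2 : ((i : ℝ) ^ 2) ^ 35 ≤ (10 * ((∏ p ∈ F, Env.sc p.1 : ℕ) : ℝ)) ^ 35 :=
      pow_le_pow_left₀ (by positivity) h1R 35
    have h3 : (1000 : ℝ) ^ 20 ≤ (i : ℝ) ^ 20 := pow_le_pow_left₀ (by norm_num) hiR 20
    have h4 : 2 * (i : ℝ) ^ 50 ≤ ((∏ p ∈ F, Env.sc p.1 : ℕ) : ℝ) ^ 35 := by
      have e2 : (10 * ((∏ p ∈ F, Env.sc p.1 : ℕ) : ℝ)) ^ 35 =
          10 ^ 35 * ((∏ p ∈ F, Env.sc p.1 : ℕ) : ℝ) ^ 35 := by rw [mul_pow]
      have e3 : ((i : ℝ) ^ 2) ^ 35 = (i : ℝ) ^ 20 * (i : ℝ) ^ 50 := by ring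
      rw [e2, e3] at h2
      have e4 : (1000 : ℝ) ^ 20 * (i : ℝ) ^ 50 ≤ (i : ℝ) ^ 20 * (i : ℝ) ^ 50 :=
        mul_le_mul_of_nonneg_right h3 (by positivity)
      have e5 : (10 : ℝ) ^ 35 * (2 * (i : ℝ) ^ 50) ≤ (1000 : ℝ) ^ 20 * (i : ℝ) ^ 50 := by
        have : (0 : ℝ) ≤ (i : ℝ) ^ 50 := by positivity
        nlinarith
      have e6 : (10 : ℝ) ^ 35 * (2 * (i : ℝ) ^ 50) ≤
          10 ^ 35 * ((∏ p ∈ F, Env.sc p.1 : ℕ) : ℝ) ^ 35 := by linarith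
      exact le_of_mul_le_mul_left e6 (by positivity)
    rw [div_le_div_iff₀ (by positivity) (by positivity)]
    have h5 : (2 : ℝ) ^ (E.δ / 2 * ((∑ p ∈ F, Env.sc p.1 : ℕ) : ℝ)) ≤
        2 * (2 : ℝ) ^ (E.δ / 2 * i) := by
      have e1 : ((∑ p ∈ F, Env.sc p.1 : ℕ) : ℝ) ≤ i + 1 := by exact_mod_cast hSum
      calc (2 : ℝ) ^ (E.δ / 2 * ((∑ p ∈ F, Env.sc p.1 : ℕ) : ℝ)) ≤
          (2 : ℝ) ^ (1 + E.δ / 2 * i) := by
            apply Real.rpow_le_rpow_of_exponent_le (by norm_num)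
            nlinarith
        _ = _ := by rw [Real.rpow_add (by norm_num), Real.rpow_one]
    calc (2 : ℝ) ^ (E.δ / 2 * ((∑ p ∈ F, Env.sc p.1 : ℕ) : ℝ)) * (i : ℝ) ^ 50 ≤
        (2 * (2 : ℝ) ^ (E.δ / 2 * i)) * (i : ℝ) ^ 50 :=
          mul_le_mul_of_nonneg_right h5 (by positivity)
      _ = (2 : ℝ) ^ (E.δ / 2 * i) * (2 * (i : ℝ) ^ 50) := by ring
      _ ≤ _ := mul_le_mul_of_nonneg_left h4 (by positivity)

end Pool.Agent.V11197.CM
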