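import Pool.Agent.V11197.CM.Key
import Pool.Agent.W76.MO.Asm5

/-!
# The system of equations and its solution
-/

set_option autoImplicit false

namespace Pool.Agent.W76.MO

open Finset
open scoped Classical
open Pool.Agent.V11197.CM (cm DD DD_scale DD_scale' div_ne_zero' DD_nonneg one_le_cm cm_nonneg cm_congr
  cm_const_one cm_squarefree factorization_eq_one abs_cm cm_inv cm_scale perturb)

namespace Env

variable (E : Env)

/-- the function -/
noncomputable def fzc (j : ℕ) (z : ℕ × ℕ → ℝ) (n : ℕ) : ℝ :=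
  cm (fun p => E.gz j z p - 1 / (p : ℝ)) n

lemma fzc_bound (j n : ℕ) (z z' : ℕ × ℕ → ℝ) (ε : ℝ) (hu : ∀ p, 0 ≤ E.gu j p)
    (hz : ∀ i, |z i| ≤ 1) (hz' : ∀ i, |z' i| ≤ 1)
    (hzz : ∀ i, |z i - z' i| ≤ ε) (hn : n ≠ 0) :
    |E.fzc j z n| ≤ E.massc j n ∧ |E.fzc j z n - E.fzc j z' n| ≤ ε * E.tauc j n := by
  have hε : 0 ≤ ε := (abs_nonneg _).trans (hzz (0, 0))
  have h := Pool.Agent.V11197.CM.perturb (fun p => 1 / (p : ℝ)) (E.gz j z) (E.gz j z') (E.g j) ε
    (fun p => by positivity) hε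
    (fun p => (E.gz_le j z 1 hz hu p).trans (le_of_eq (one_mul _)))
    (fun p => (E.gz_le j z' 1 hz' hu p).trans (le_of_eq (one_mul _)))
    (fun p => by rw [gz_sub]; exact E.gz_le j _ ε hzz hu p) n hn
  refine ⟨?_, ?_⟩
  · refine h.1.trans (le_of_eq ?_)
    rw [cm_scale n hn]
    rfl
  · refine h.2.trans (le_of_eq ?_)
    rw [DD_scale' n hn]
    rfl

lemma fzc_zero (j n : ℕ) (hu : ∀ p, 0 ≤ E.gu j p) (hn : n ≠ 0) :
    |E.fzc j 0 n| = 1 / (n : ℝ) := by
  have h0 : ∀ p, E.gz j 0 p = 0 := fun p => by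
    have := E.gz_le j 0 0 (fun i => by simp) hu p
    rw [zero_mul] at this
    exact abs_eq_zero.1 (le_antisymm this (abs_nonneg _))
  unfold fzc
  rw [abs_cm, ← cm_inv n hn]
  apply cm_congr
  intro p _
  rw [h0, zero_sub, abs_neg, abs_of_nonneg (by positivity)]

lemma fzc_sq (j : ℕ) (z : ℕ × ℕ → ℝ) (n : ℕ) (hn : Squarefree n) : E.fzc j z n = E.fz j z n := by
  unfold fzc fz
  rw [cm_squarefree _ n hn]

lemma tauc_sq (j n : ℕ) (hn : Squarefree n) : E.tauc j n = E.tau j n := by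
  unfold tauc tau TT DD
  congr 1
  refine sum_congr rfl fun p hp => ?_
  rw [factorization_eq_one n p hn hp]
  have hsq : Squarefree (n / p) :=
    hn.squarefree_of_dvd (Nat.div_dvd_of_dvd (Nat.dvd_of_mem_primeFactors hp))
  rw [cm_squarefree _ (n / p) hsq, primeFactors_div n p hn hp]
  push_cast
  ring

/-- Lipschitz estimate at the hosts -/
lemma hostc_lip (j : ℕ) (z z' : ℕ × ℕ → ℝ) (ε : ℝ) (hu : ∀ p, 0 ≤ E.gu j p)
    (hU : ∀ p, E.gu j p ≠ 0 → E.U j p) (hH : ∀ q, E.gh j q ≠ 0 → E.H j q)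
    (hz : ∀ i, |z i| ≤ 1) (hz' : ∀ i, |z' i| ≤ 1)
    (hzz : ∀ i, |z i - z' i| ≤ ε) (i k n : ℕ) (hi : j ≤ i)
    (hk : k ∈ E.Bad i) (hn : n ∈ E.Host j i k) :
    |E.fzc j z n - E.fzc j z' n - (z (i, k) - z' (i, k)) * (E.w i / ((E.Host j i k).card : ℝ))| ≤
      ε * (E.tauc j n - E.w i / ((E.Host j i k).card : ℝ)) := by
  have hsq : Squarefree n := by
    unfold Host at hn
    exact (mem_filter.1 hn).2.2.2.1
  rw [fzc_sq E j z n hsq, fzc_sq E j z' n hsq, tauc_sq E j n hsq]
  exact E.host_lip j z z' ε hu hU hH hz hz' hzz i k n hi hk hn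

/-- Lipschitz estimate at primes -/
lemma primec_lip (j p : ℕ) (hp : p.Prime) (z z' : ℕ × ℕ → ℝ) (x : ℕ × ℕ) (W ε : ℝ)
    (hz : ∀ y : ℕ × ℕ → ℝ, E.gz j y p = y x * W) (hg : E.g j p = W) :
    |E.fzc j z p - E.fzc j z' p - (z x - z' x) * W| ≤ ε * (E.tauc j p - W) := by
  rw [fzc_sq E j z p hp.squarefree, fzc_sq E j z' p hp.squarefree, tauc_sq E j p hp.squarefree]
  exact E.prime_lip j p hp z z' x W ε hz hg

/-- rough numbers up to `2^j` -/
noncomputable def A0c (R j : ℕ) : Finset ℕ := (Icc 1 (2 ^ j)).filter (fun n => Rough R n)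

lemma tau_firstc (hGB : E.GBounds) (R : ℕ) : ∃ J : ℕ, 1 ≤ J ∧ ∀ j : ℕ, J ≤ j →
    (E.UB j).Nonempty ∧ (∀ p ∈ E.UB j, p.Prime) ∧
    ∑ n ∈ A0c R j, E.tauc j n ≤ 8 * j + 8 * j / 4 := by
  obtain ⟨J, hJ, hGB⟩ := hGB
  refine ⟨J + 3, by omega, fun j hj => ?_⟩
  obtain ⟨hUB, hu0, hh0, hgu, hgh, _, hghq, hsum, _⟩ := hGB j (by omega)
  have hj1 : 1 ≤ j := by omega
  have hjr : (1 : ℝ) ≤ j := by exact_mod_cast hj1
  have hcU := E.hcU
  have hcard : 0 < ((E.UB j).card : ℝ) := lt_of_lt_of_le (by positivity) hUB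
  have hUBp : ∀ p ∈ E.UB j, p.Prime := by
    intro p hp
    unfold UB at hp
    exact E.u_prime p (mem_filter.1 hp).2
  refine ⟨by exact Finset.card_pos.1 (by exact_mod_cast hcard), hUBp, ?_⟩
  -- every prime with a perturbation is large
  have hlarge : ∀ p : ℕ, E.g j p ≠ 0 → (2 : ℝ) ^ ((j : ℝ) / 2) ≤ p := by
    intro p hp
    by_cases h1 : E.gh j p = 0
    · have h2 : E.gu j p ≠ 0 := by
        intro h2
        apply hp
        unfold g
        rw [h1, h2, add_zero]
      have h3 := (hgu p h2).2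
      rcases Nat.lt_or_ge j 2 with hj2 | hj2
      · have hj' : j = 1 := by omega
        have h4 := (E.u_prime p (hgu p h2).1).two_le
        rw [hj']
        have h5 : (2 : ℝ) ^ (((1 : ℕ) : ℝ) / 2) ≤ (2 : ℝ) ^ (1 : ℝ) :=
          Real.rpow_le_rpow_of_exponent_le (by norm_num) (by norm_num)
        rw [Real.rpow_one] at h5
        have h6 : (2 : ℝ) ≤ p := by exact_mod_cast h4
        linarith
      · have h4 : (2 : ℝ) ^ ((j : ℝ) / 2) ≤ (2 : ℝ) ^ (((j - 1 : ℕ) : ℝ)) := by
          apply Real.rpow_le_rpow_of_exponent_le (by norm_num)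
          rw [Nat.cast_sub hj1]
          have : (2 : ℝ) ≤ j := by exact_mod_cast hj2
          push_cast
          linarith
        rw [Real.rpow_natCast] at h4
        have h5 : ((2 ^ (j - 1) : ℕ) : ℝ) < p := by exact_mod_cast h3
        push_cast at h5
        linarith
    · exact (hghq p h1).1
  have hprime : ∀ p : ℕ, E.g j p ≠ 0 → p.Prime := by
    intro p hp
    by_cases h1 : E.gh j p = 0
    · have h2 : E.gu j p ≠ 0 := by
        intro h2
        apply hp
        unfold g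
        rw [h1, h2, add_zero]
      exact E.u_prime p (hgu p h2).1
    · exact (hgh p h1).1.1
  have hinj : ∀ p q : ℕ, E.g j p ≠ 0 → E.g j q ≠ 0 → 2 ^ j < p * q := by
    intro p q hp hq
    have h1 := hlarge p hp
    have h2 := hlarge q hq
    have h3 : (2 : ℝ) ^ ((j : ℝ) / 2) * (2 : ℝ) ^ ((j : ℝ) / 2) = ((2 ^ j : ℕ) : ℝ) := by
      rw [← Real.rpow_add (by norm_num)]
      push_cast
      rw [← Real.rpow_natCast]
      congr 1
      ring
    have h4 : (0 : ℝ) < (2 : ℝ) ^ ((j : ℝ) / 2) := by positivity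
    have h5 : ((2 ^ j : ℕ) : ℝ) ≤ ((p * q : ℕ) : ℝ) := by
      rw [← h3]; push_cast; nlinarith
    have h6 : 2 ^ j ≤ p * q := by exact_mod_cast h5
    rcases Nat.lt_or_ge (2 ^ j) (p * q) with h7 | h7
    · exact h7
    · exfalso
      have h8 : p * q = 2 ^ j := le_antisymm h7 h6
      have h9 : p ∣ 2 ^ j := ⟨q, h8.symm⟩
      have h10 : p = 2 :=
        (Nat.prime_dvd_prime_iff_eq (hprime p hp) Nat.prime_two).1 ((hprime p hp).dvd_of_dvd_pow h9)
      rw [h10] at h1
      have h11 : (2 : ℝ) < (2 : ℝ) ^ ((j : ℝ) / 2) := by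
        calc (2 : ℝ) = (2 : ℝ) ^ (1 : ℝ) := (Real.rpow_one 2).symm
          _ < (2 : ℝ) ^ ((j : ℝ) / 2) := by
              apply Real.rpow_lt_rpow_of_exponent_lt (by norm_num)
              have : (3 : ℝ) ≤ j := by exact_mod_cast (by omega : 3 ≤ j)
              linarith
      push_cast at h1
      linarith
  -- tau for n in A0
  have htau : ∀ n ∈ A0c R j, E.tauc j n = ∑ p ∈ n.primeFactors, E.g j p * (1 / ((n / p : ℕ) : ℝ)) := by
    intro n hn
    unfold A0c at hn
    rw [mem_filter, mem_Icc] at hn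
    obtain ⟨⟨hn1, hn2⟩, _⟩ := hn
    unfold tauc
    rw [DD_scale n (by omega) (fun p => 1 + p * E.g j p) (E.g j)]
    refine sum_congr rfl fun p hp => ?_
    by_cases hg : E.g j p = 0
    · rw [hg, zero_mul, zero_mul, mul_zero]
    have hpp := Nat.prime_of_mem_primeFactors hp
    have hpn := Nat.dvd_of_mem_primeFactors hp
    have hv : n.factorization p = 1 := by
      have hv1 : 1 ≤ n.factorization p := (hpp.dvd_iff_one_le_factorization (by omega)).1 hpn
      by_contra h2
      have hv2 : 2 ≤ n.factorization p := by omega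
      have hqq : p ^ 2 ∣ n := (hpp.pow_dvd_iff_le_factorization (by omega)).2 hv2
      have h3 := Nat.le_of_dvd hn1 hqq
      rw [pow_two] at h3
      have := hinj p p hg hg
      omega
    have h3 : cm (fun p => 1 + p * E.g j p) (n / p) = 1 := by
      refine (cm_congr _ (fun _ => 1) (n / p) ?_).trans (cm_const_one _)
      intro q hq
      have hg2 : E.g j q = 0 := by
        by_contra hg2
        have hqp := Nat.prime_of_mem_primeFactors hq
        have hqn := Nat.dvd_of_mem_primeFactors hq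
        have hdvd : p * q ∣ n := by
          have h5 := Nat.mul_dvd_mul_left p hqn
          rwa [Nat.mul_div_cancel' hpn] at h5
        have := Nat.le_of_dvd hn1 hdvd
        have := hinj p q hg hg2
        omega
      rw [hg2, mul_zero, add_zero]
    rw [hv, h3]
    push_cast
    ring
  have hsplit : ∑ n ∈ A0c R j, E.tauc j n =
      ∑ n ∈ A0c R j, ∑ p ∈ n.primeFactors, E.gu j p * (1 / ((n / p : ℕ) : ℝ)) +
      ∑ n ∈ A0c R j, ∑ p ∈ n.primeFactors, E.gh j p * (1 / ((n / p : ℕ) : ℝ)) := by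
    rw [← sum_add_distrib]
    refine sum_congr rfl fun n hn => ?_
    rw [htau n hn, ← sum_add_distrib]
    refine sum_congr rfl fun p _ => ?_
    unfold g
    ring
  -- first part
  have hp1 : ∑ n ∈ A0c R j, ∑ p ∈ n.primeFactors, E.gu j p * (1 / ((n / p : ℕ) : ℝ)) ≤ 8 * j := by
    have h1 : ∀ n ∈ A0c R j, ∑ p ∈ n.primeFactors, E.gu j p * (1 / ((n / p : ℕ) : ℝ)) =
        if n ∈ E.UB j then 8 * j / ((E.UB j).card : ℝ) else 0 := by
      intro n hn
      unfold A0c at hn
      rw [mem_filter, mem_Icc] at hn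
      obtain ⟨⟨hn1, hn2⟩, _⟩ := hn
      have hkey : ∀ p ∈ n.primeFactors, E.gu j p ≠ 0 → p = n ∧ n ∈ E.UB j := by
        intro p hp hg
        have hpn := Nat.dvd_of_mem_primeFactors hp
        obtain ⟨hU, hlt⟩ := hgu p hg
        obtain ⟨m, rfl⟩ := hpn
        have hjj : 2 ^ j = 2 * 2 ^ (j - 1) := by
          rw [← pow_succ']
          congr 1
          omega
        have hm : m = 1 := by
          have hm0 : m ≠ 0 := by rintro rfl; omega
          by_contra hm1
          have : 2 ≤ m := by omega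
          nlinarith
        subst hm
        rw [mul_one] at hn2 ⊢
        exact ⟨rfl, by unfold UB; exact mem_filter.2 ⟨mem_Ioc.2 ⟨hlt, hn2⟩, hU⟩⟩
      split_ifs with hmem
      · have hnp := hUBp n hmem
        rw [hnp.primeFactors, sum_singleton, Nat.div_self hnp.pos]
        have hgun : E.gu j n = 8 * j / ((E.UB j).card : ℝ) := by
          have hmem' := hmem
          unfold UB at hmem'
          rw [mem_filter, mem_Ioc] at hmem'
          unfold gu
          rw [if_pos ⟨hmem'.2, hmem'.1.1⟩, if_pos hmem'.1.2]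
        rw [hgun]
        simp
      · refine sum_eq_zero fun p hp => ?_
        by_cases hg : E.gu j p = 0
        · rw [hg, zero_mul]
        · exact absurd (hkey p hp hg).2 hmem
    rw [sum_congr rfl h1, ← sum_filter, sum_const, nsmul_eq_mul]
    have h2 : (((A0c R j).filter (fun n => n ∈ E.UB j)).card : ℝ) ≤ ((E.UB j).card : ℝ) := by
      exact_mod_cast Finset.card_le_card (fun n hn => (mem_filter.1 hn).2)
    calc (((A0c R j).filter (fun n => n ∈ E.UB j)).card : ℝ) * (8 * j / ((E.UB j).card : ℝ))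
        ≤ ((E.UB j).card : ℝ) * (8 * j / ((E.UB j).card : ℝ)) :=
          mul_le_mul_of_nonneg_right h2 (by positivity)
      _ = 8 * j := by field_simp
  -- second part
  have hp2 : ∑ n ∈ A0c R j, ∑ p ∈ n.primeFactors, E.gh j p * (1 / ((n / p : ℕ) : ℝ)) ≤ 2 := by
    have h1 : ∑ n ∈ A0c R j, ∑ p ∈ n.primeFactors, E.gh j p * (1 / ((n / p : ℕ) : ℝ)) ≤
        ∑ x ∈ (Icc (1 : ℕ) (2 ^ j)) ×ˢ (Icc (1 : ℕ) (2 ^ j)), E.gh j x.1 * (1 / (x.2 : ℝ)) := by
      rw [sum_sigma']
      have hi : Set.InjOn (fun x : (_ : ℕ) × ℕ => ((x.2, x.1 / x.2) : ℕ × ℕ))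
          (((A0c R j).sigma fun n => n.primeFactors : Finset ((_ : ℕ) × ℕ)) : Set ((_ : ℕ) × ℕ)) := by
        rintro ⟨n, p⟩ hx ⟨n', p'⟩ hy hxy
        simp only [Finset.coe_sigma, Set.mem_sigma_iff, Finset.mem_coe] at hx hy
        simp only [Prod.mk.injEq] at hxy
        obtain ⟨h1, h2⟩ := hxy
        subst h1
        have e1 := Nat.div_mul_cancel (Nat.dvd_of_mem_primeFactors hx.2)
        have e2 := Nat.div_mul_cancel (Nat.dvd_of_mem_primeFactors hy.2)
        have : n = n' := by rw [← e1, ← e2, h2]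
        subst this
        rfl
      have e : ∑ x ∈ (A0c R j).sigma fun n => n.primeFactors,
            E.gh j x.2 * (1 / ((x.1 / x.2 : ℕ) : ℝ)) =
          ∑ y ∈ ((A0c R j).sigma fun n => n.primeFactors).image
            (fun x : (_ : ℕ) × ℕ => ((x.2, x.1 / x.2) : ℕ × ℕ)), E.gh j y.1 * (1 / (y.2 : ℝ)) := by
        rw [sum_image hi]
      rw [e]
      refine sum_le_sum_of_subset_of_nonneg ?_ fun x _ _ => mul_nonneg (hh0 _) (by positivity)
      intro y hy
      rw [mem_image] at hy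
      obtain ⟨⟨n, p⟩, hx, rfl⟩ := hy
      rw [mem_sigma] at hx
      obtain ⟨hn, hp⟩ := hx
      simp only at hn hp
      unfold A0c at hn
      rw [mem_filter, mem_Icc] at hn
      have hpp := Nat.prime_of_mem_primeFactors hp
      have hpn := Nat.le_of_dvd hn.1.1 (Nat.dvd_of_mem_primeFactors hp)
      simp only [mem_product, mem_Icc]
      refine ⟨⟨hpp.one_le, hpn.trans hn.1.2⟩, ?_, (Nat.div_le_self _ _).trans hn.1.2⟩
      exact Nat.div_pos hpn hpp.pos
    refine h1.trans ?_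
    rw [sum_product]
    simp only
    have h2 : ∑ x ∈ Icc (1 : ℕ) (2 ^ j), ∑ y ∈ Icc (1 : ℕ) (2 ^ j), E.gh j x * (1 / (y : ℝ)) =
        (∑ x ∈ Icc (1 : ℕ) (2 ^ j), E.gh j x) * ∑ y ∈ Icc (1 : ℕ) (2 ^ j), 1 / (y : ℝ) := by
      rw [sum_mul_sum]
    rw [h2]
    have h3 : ∑ x ∈ Icc (1 : ℕ) (2 ^ j), E.gh j x ≤ 1 / j := by
      refine le_trans (sum_le_sum fun q hq => ?_) (hsum (Icc 1 (2 ^ j)))
      rw [mem_Icc] at hq
      have hq0 : (1 : ℝ) ≤ q := by exact_mod_cast hq.1
      have h4 : (q : ℝ) * (q : ℝ) ^ (-1 + E.τ / 4) = (q : ℝ) ^ (E.τ / 4) := by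
        nth_rewrite 1 [← Real.rpow_one (q : ℝ)]
        rw [← Real.rpow_add (by linarith)]
        congr 1
        ring
      have h5 : 1 ≤ (q : ℝ) ^ (E.τ / 4) := Real.one_le_rpow hq0 (by have := E.hτ; positivity)
      calc E.gh j q = E.gh j q * 1 := (mul_one _).symm
        _ ≤ E.gh j q * (q : ℝ) ^ (E.τ / 4) := mul_le_mul_of_nonneg_left h5 (hh0 q)
        _ = (q * E.gh j q) * (q : ℝ) ^ (-1 + E.τ / 4) := by rw [← h4]; ring
    have h6 := harm_le j
    have h7 : 0 ≤ ∑ x ∈ Icc (1 : ℕ) (2 ^ j), E.gh j x := sum_nonneg fun x _ => hh0 x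
    calc (∑ x ∈ Icc (1 : ℕ) (2 ^ j), E.gh j x) * ∑ y ∈ Icc (1 : ℕ) (2 ^ j), 1 / (y : ℝ)
        ≤ (1 / j) * (1 + j) := mul_le_mul h3 h6 (sum_nonneg fun _ _ => by positivity) (by positivity)
      _ = 1 / j + 1 := by field_simp
      _ ≤ 1 + 1 := by
          have : 1 / (j : ℝ) ≤ 1 := by rw [div_le_one (by linarith)]; exact hjr
          linarith
      _ = 2 := by norm_num
  rw [hsplit]
  linarith

theorem systemc (hGB : E.GBounds) (hHC : E.HCount)
    (hKey : ∃ R₀ : ℕ, ∀ R : ℕ, R₀ ≤ R → ∃ J : ℕ, ∀ j : ℕ, J ≤ j → E.Keyc R j) :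
    ∃ (R j : ℕ) (z : ℕ × ℕ → ℝ), (∀ x, |z x| ≤ 1) ∧ 2 ≤ R ∧ 10 ≤ j ∧ E.Keyc R j ∧
      ∑ n ∈ A0c R j, E.fzc j z n = 0 ∧
      ∀ i k : ℕ, j ≤ i → k < nc E.δ i → ∑ n ∈ E.csc R i k, E.fzc j z n = 0 := by
  obtain ⟨R₀, hKey⟩ := hKey
  set R := max R₀ 2 with hR
  obtain ⟨J1, hKey⟩ := hKey R (le_max_left _ _)
  obtain ⟨J2, hJ2, hfirst⟩ := E.tau_firstc hGB R
  obtain ⟨J3, hHC⟩ := hHC
  obtain ⟨J4, hJ4⟩ := ge_of_rpow_ge E.τ E.hτ R
  obtain ⟨J5, hJ5, hGB⟩ := hGB
  set j := J1 + J2 + J3 + J4 + J5 + R + 10 with hj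
  have hKj := hKey j (by omega)
  obtain ⟨hUBne, hUBp, htau1⟩ := hfirst j (by omega)
  obtain ⟨hUB, hu0, hh0, hgu, hgh, hguU, hghq, hsum1, hsum2⟩ := hGB j (by omega)
  have hj1 : 1 ≤ j := by omega
  have hjr : (1 : ℝ) ≤ j := by exact_mod_cast hj1
  have hRj : R ≤ 2 ^ (j - 1) := by
    have h1 : R ≤ j - 1 := by omega
    exact h1.trans (Nat.lt_two_pow_self).le
  -- the system
  let F : (ℕ × ℕ → ℝ) → ℕ × ℕ → ℝ := fun z x =>
    if x = (j - 1, 0) then ∑ n ∈ A0c R j, E.fzc j z n
    else if j ≤ x.1 ∧ x.2 < nc E.δ x.1 then ∑ n ∈ E.csc R x.1 x.2, E.fzc j z n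
    else z x
  let W : ℕ × ℕ → ℝ := fun x =>
    if x = (j - 1, 0) then 8 * j else if j ≤ x.1 ∧ x.2 < nc E.δ x.1 then E.w x.1 else 1
  have hW : ∀ x, 0 < W x := by
    intro x
    simp only [W]
    split_ifs with h1 h2
    · positivity
    · exact E.w_pos _ (hj1.trans h2.1)
    · norm_num
  have hA0sq : ∀ n ∈ A0c R j, n ≠ 0 := fun n hn => by
    unfold A0c at hn
    rw [mem_filter, mem_Icc] at hn
    omega
  have hcssq : ∀ i k n, k < nc E.δ i → n ∈ E.csc R i k → n ≠ 0 := fun i k n hk hn => by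
    unfold csc at hn
    have h := cell_loc E.δ E.hδ i k n hk (mem_filter.1 hn).1
    omega
  obtain ⟨z, hz1, hz0⟩ := solve F W hW (by
    intro x
    simp only [F, W]
    split_ifs with h1 h2
    · calc |∑ n ∈ A0c R j, E.fzc j 0 n| ≤ ∑ n ∈ A0c R j, |E.fzc j 0 n| := abs_sum_le_sum_abs _ _
        _ = ∑ n ∈ A0c R j, 1 / (n : ℝ) := sum_congr rfl fun n hn => E.fzc_zero j n hu0 (hA0sq n hn)
        _ ≤ ∑ n ∈ Icc (1 : ℕ) (2 ^ j), 1 / (n : ℝ) := by
            apply sum_le_sum_of_subset_of_nonneg (filter_subset _ _)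
            intro n _ _
            positivity
        _ ≤ 1 + j := harm_le j
        _ ≤ 8 * j / 4 := by linarith
    · calc |∑ n ∈ E.csc R x.1 x.2, E.fzc j 0 n| ≤ ∑ n ∈ E.csc R x.1 x.2, |E.fzc j 0 n| :=
            abs_sum_le_sum_abs _ _
        _ = ∑ n ∈ E.csc R x.1 x.2, 1 / (n : ℝ) :=
            sum_congr rfl fun n hn => E.fzc_zero j n hu0 (hcssq _ _ n h2.2 hn)
        _ ≤ E.w x.1 / 4 := hKj.inv_cell x.1 x.2 h2.1 h2.2
    · simp) (by
    intro z z' ε hz hz' hzz x
    have hε : 0 ≤ ε := (abs_nonneg _).trans (hzz (0, 0))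
    simp only [F, W]
    split_ifs with h1 h2
    · -- the first block
      subst h1
      have hsub : E.UB j ⊆ A0c R j := by
        intro p hp
        have hpp := hUBp p hp
        unfold UB at hp
        rw [mem_filter, mem_Ioc] at hp
        unfold A0c
        rw [mem_filter, mem_Icc]
        refine ⟨⟨hpp.one_le, hp.1.2⟩, ?_⟩
        intro q hq hqp
        have : q = p := (Nat.prime_dvd_prime_iff_eq hq hpp).1 hqp
        subst this
        have : R ≤ q := by omega
        exact_mod_cast this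
      have h := lip_sum (A0c R j) (E.UB j) hsub hUBne (E.fzc j z) (E.fzc j z') (E.tauc j) ε (8 * j)
        (z (j - 1, 0) - z' (j - 1, 0))
        (fun n hn _ => (E.fzc_bound j n z z' ε hu0 hz hz' hzz (hA0sq n hn)).2)
        (fun p hp => E.primec_lip j p (hUBp p hp) z z' (j - 1, 0) _ ε
          (fun y => (E.gz_first j y (fun q hq => (hgh q hq).2.1) p hp).1)
          (E.gz_first j z (fun q hq => (hgh q hq).2.1) p hp).2)
      refine h.trans (mul_le_mul_of_nonneg_left ?_ hε)
      linarith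
    · -- a cell
      obtain ⟨i, k⟩ := x
      simp only at h2 ⊢
      obtain ⟨hji, hk⟩ := h2
      have htau := hKj.tau_cell i k hji hk
      have hi1 : 1 ≤ i := hj1.trans hji
      have hir : (0 : ℝ) < i := by exact_mod_cast hi1
      have hhpos : (0 : ℝ) < hh E.δ i := by exact_mod_cast hh_pos E.δ i
      have hRi : R ≤ 2 ^ i := by
        refine hRj.trans (Nat.pow_le_pow_right (by norm_num) (by omega))
      by_cases hkb : k ∈ E.Bad i
      · -- bad cell
        have hne : (E.Host j i k).Nonempty := by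
          rw [← Finset.card_pos]
          have h3 := hHC j (by omega) i hji k hkb
          have h4 : 0 < E.cH / 2 * hh E.δ i / i := by
            have := E.hcH
            positivity
          exact_mod_cast h4.trans_le h3
        have hsub : E.Host j i k ⊆ E.csc R i k := by
          intro n hn
          unfold Host at hn
          rw [mem_filter] at hn
          unfold csc
          rw [mem_filter]
          refine ⟨hn.1, ?_⟩
          intro p hp hpn
          exact (hJ4 i (by omega)).trans (hn.2.2.2.2.1 p hp hpn)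
        have h := lip_sum (E.csc R i k) (E.Host j i k) hsub hne (E.fzc j z) (E.fzc j z') (E.tauc j) ε
          (E.w i) (z (i, k) - z' (i, k))
          (fun n hn _ => (E.fzc_bound j n z z' ε hu0 hz hz' hzz (hcssq _ _ n hk hn)).2)
          (fun n hn => E.hostc_lip j z z' ε hu0 hgu (fun q hq => (hgh q hq).1) hz hz' hzz i k n hji hkb hn)
        refine h.trans (mul_le_mul_of_nonneg_left ?_ hε)
        linarith
      · -- good cell
        have hcard : 0 < (((cell E.δ i k).filter E.isU).card : ℝ) := by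
          have h3 : ¬ ((((cell E.δ i k).filter E.isU).card : ℝ) < E.cU * hh E.δ i / (i : ℝ) ^ 4) := by
            intro h3
            apply hkb
            unfold Bad
            rw [mem_filter, mem_range]
            exact ⟨hk, h3⟩
          rw [not_lt] at h3
          have := E.hcU
          exact lt_of_lt_of_le (by positivity) h3
        have hne : ((cell E.δ i k).filter E.isU).Nonempty := by
          rw [← Finset.card_pos]
          exact_mod_cast hcard
        have hpr : ∀ p ∈ (cell E.δ i k).filter E.isU, p.Prime := fun p hp =>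
          E.u_prime p (mem_filter.1 hp).2
        have hsub : (cell E.δ i k).filter E.isU ⊆ E.csc R i k := by
          intro p hp
          have hpp := hpr p hp
          rw [mem_filter] at hp
          unfold csc
          rw [mem_filter]
          refine ⟨hp.1, ?_⟩
          intro q hq hqp
          have : q = p := (Nat.prime_dvd_prime_iff_eq hq hpp).1 hqp
          subst this
          have h4 := (cell_loc E.δ E.hδ i k q hk hp.1).1
          have : R ≤ q := by omega
          exact_mod_cast this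
        have h := lip_sum (E.csc R i k) ((cell E.δ i k).filter E.isU) hsub hne (E.fzc j z) (E.fzc j z')
          (E.tauc j) ε (E.w i) (z (i, k) - z' (i, k))
          (fun n hn _ => (E.fzc_bound j n z z' ε hu0 hz hz' hzz (hcssq _ _ n hk hn)).2)
          (fun p hp => by
            have hp' := mem_filter.1 hp
            exact E.primec_lip j p (hpr p hp) z z' (i, k) _ ε
              (fun y => (E.gz_good j y (fun q hq => (hgh q hq).2.1) hh0 i k p hji hk hkb hp'.1 hp'.2).1)
              (E.gz_good j z (fun q hq => (hgh q hq).2.1) hh0 i k p hji hk hkb hp'.1 hp'.2).2)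
        refine h.trans (mul_le_mul_of_nonneg_left ?_ hε)
        linarith
    · simp only [one_mul, sub_self, abs_zero]
      positivity)
  refine ⟨R, j, z, hz1, le_max_right _ _, by omega, hKj, ?_, ?_⟩
  · have h := hz0 (j - 1, 0)
    simp only [F] at h
    simpa using h
  · intro i k hi hk
    have h := hz0 (i, k)
    simp only [F] at h
    have hne : ¬ ((i, k) : ℕ × ℕ) = (j - 1, 0) := by
      intro h1
      have : i = j - 1 := (Prod.ext_iff.1 h1).1
      omega
    rw [if_neg hne, if_pos ⟨hi, hk⟩] at h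
    exact h

end Env

end Pool.Agent.W76.MO
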